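import Mathlib

set_option autoImplicit false

/-!
# Classes of groups with the inheritance properties of Farrell-Jones groups
-/

namespace Pool.Agent.helper16.FJ

/-- A class of (discrete) groups with the inheritance properties that are known for the class of
Farrell-Jones groups: it contains the finite groups and the infinite cyclic group, and it is closed
under subgroups, direct products, free products, overgroups of finite index and colimits over
directed systems with arbitrary structure maps. -/
structure Inherit (P : ∀ (G : Type) [Group G], Prop) : Prop where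
  /-- finite groups -/
  finite : ∀ (G : Type) [Group G], Finite G → P G
  /-- the infinite cyclic group -/
  int : P (Multiplicative ℤ)
  /-- subgroups -/
  subgroup : ∀ (G : Type) [Group G], P G → ∀ H : Subgroup G, P H
  /-- direct products -/
  prod : ∀ (G H : Type) [Group G] [Group H], P G → P H → P (G × H)
  /-- free products -/
  coprod : ∀ (G H : Type) [Group G] [Group H], P G → P H → P (Monoid.Coprod G H)
  /-- overgroups of finite index -/
  overgroup : ∀ (G : Type) [Group G] (H : Subgroup G), H.FiniteIndex → P H → P G
  /-- directed colimits: `L` with the maps `φ i` is a colimit of the directed system `(G, f)`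
  when the `φ i` are compatible with the `f i j`, jointly surjective, and an element of `G i`
  dies in `L` only if it dies in some `G j`. -/
  colim : ∀ (ι : Type) [Preorder ι] [Nonempty ι] [IsDirectedOrder ι]
    (G : ι → Type) [∀ i, Group (G i)] (f : ∀ i j, i ≤ j → G i →* G j)
    (L : Type) [Group L] (φ : ∀ i, G i →* L),
    (∀ i x, f i i le_rfl x = x) →
    (∀ i j k (hij : i ≤ j) (hjk : j ≤ k) x, f j k hjk (f i j hij x) = f i k (hij.trans hjk) x) →
    (∀ i j (h : i ≤ j) x, φ j (f i j h x) = φ i x) →
    (∀ y : L, ∃ i x, φ i x = y) →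
    (∀ i x, φ i x = 1 → ∃ j, ∃ h : i ≤ j, f i j h x = 1) →
    (∀ i, P (G i)) → P L

namespace Inherit

variable {P : ∀ (G : Type) [Group G], Prop} (hP : Inherit P)
include hP

theorem of_mulEquiv {G H : Type} [Group G] [Group H] (e : G ≃* H) (hG : P G) : P H := by
  refine hP.colim Unit (fun _ => G) (fun _ _ _ => MonoidHom.id G) H (fun _ => e.toMonoidHom)
    ?_ ?_ ?_ ?_ ?_ (fun _ => hG)
  · intro _ _; rfl
  · intro _ _ _ _ _ _; rfl
  · intro _ _ _ _; rfl
  · intro y; exact ⟨(), e.symm y, by simp⟩
  · intro i x hx
    refine ⟨(), le_rfl, ?_⟩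
    simpa using hx

theorem of_injective {G H : Type} [Group G] [Group H] (f : H →* G)
    (hf : Function.Injective f) (hG : P G) : P H :=
  hP.of_mulEquiv (MonoidHom.ofInjective hf).symm (hP.subgroup G hG f.range)

theorem trivial_group (G : Type) [Group G] [Subsingleton G] : P G :=
  hP.finite G inferInstance

theorem pi {G : Type} [Group G] (hG : P G) (X : Type) [Finite X] : P (X → G) := by
  classical
  refine Finite.induction_empty_option (P := fun X => P (X → G)) ?_ ?_ ?_ X
  · intro α β e h
    refine hP.of_injective (G := α → G)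
      { toFun := fun f => fun a => f (e a), map_one' := rfl, map_mul' := fun _ _ => rfl } ?_ h
    intro f g hfg
    funext b
    have := congrFun hfg (e.symm b)
    simpa using this
  · exact hP.trivial_group _
  · intro α _ h
    refine hP.of_injective (G := G × (α → G))
      { toFun := fun f => (f none, fun a => f (some a)), map_one' := rfl,
        map_mul' := fun _ _ => rfl } ?_ (hP.prod _ _ hG h)
    intro f g hfg
    funext b
    simp only [MonoidHom.coe_mk, OneHom.coe_mk, Prod.mk.injEq] at hfg
    cases b with
    | none => exact hfg.1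
    | some a => exact congrFun hfg.2 a

/-- A directed union of subgroups in the class is in the class. -/
theorem of_directed_union {G : Type} [Group G] {ι : Type} [Nonempty ι] (H : ι → Subgroup G)
    (hdir : ∀ i j, ∃ k, H i ≤ H k ∧ H j ≤ H k) (K : Subgroup G)
    (hK : ∀ g ∈ K, ∃ i, g ∈ H i) (hH : ∀ i, P (H i)) : P K := by
  let ord : Preorder ι :=
    { le := fun i j => H i ≤ H j
      le_refl := fun i => le_refl (H i)
      le_trans := fun i j k h1 h2 => le_trans h1 h2 }
  -- the union
  have hdir' : Directed (· ≤ ·) H := fun i j => by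
    obtain ⟨k, hk⟩ := hdir i j
    exact ⟨k, hk⟩
  have hmem : ∀ g, g ∈ (⨆ i, H i) ↔ ∃ i, g ∈ H i := fun g =>
    Subgroup.mem_iSup_of_directed hdir'
  have hL : P (⨆ i, H i : Subgroup G) := by
    have : @IsDirectedOrder ι ord.toLE := ⟨fun i j => hdir i j⟩
    refine hP.colim ι (fun i => H i)
      (fun i j h => Subgroup.inclusion h) (⨆ i, H i : Subgroup G)
      (fun i => Subgroup.inclusion (le_iSup H i)) ?_ ?_ ?_ ?_ ?_ hH
    · intro i x; rfl
    · intro i j k hij hjk x; rfl
    · intro i j h x; rfl
    · rintro ⟨y, hy⟩
      obtain ⟨i, hi⟩ := (hmem y).1 hy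
      exact ⟨i, ⟨y, hi⟩, rfl⟩
    · intro i x hx
      refine ⟨i, le_refl (H i), ?_⟩
      have : (x : G) = 1 := by
        have := congrArg Subtype.val hx
        simpa using this
      apply Subtype.ext
      simpa using this
  have hle : K ≤ ⨆ i, H i := fun g hg => (hmem g).2 (hK g hg)
  exact hP.of_injective (Subgroup.inclusion hle) (Subgroup.inclusion_injective hle) hL

/-- If all finitely generated subgroups are in the class then so is the group. -/
theorem of_fg {G : Type} [Group G] (h : ∀ S : Finset G, P (Subgroup.closure (S : Set G))) :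
    P G := by
  classical
  have : P (⊤ : Subgroup G) := by
    refine hP.of_directed_union (ι := Finset G) (fun S => Subgroup.closure (S : Set G)) ?_ ⊤ ?_ h
    · intro S T
      refine ⟨S ∪ T, Subgroup.closure_mono ?_, Subgroup.closure_mono ?_⟩
      · intro x hx; simp at hx ⊢; exact Or.inl hx
      · intro x hx; simp at hx ⊢; exact Or.inr hx
    · intro g _
      exact ⟨{g}, Subgroup.subset_closure (by simp)⟩
  exact hP.of_mulEquiv Subgroup.topEquiv this

theorem freeGroup_finite (α : Type) [Finite α] : P (FreeGroup α) := by
  classical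
  refine Finite.induction_empty_option (P := fun α => P (FreeGroup α)) ?_ ?_ ?_ α
  · intro α β e h
    exact hP.of_mulEquiv (FreeGroup.freeGroupCongr e) h
  · exact hP.trivial_group _
  · intro α _ h
    let f : FreeGroup (Option α) →* Monoid.Coprod (FreeGroup α) (Multiplicative ℤ) :=
      FreeGroup.lift (fun o => Option.casesOn o (Monoid.Coprod.inr (Multiplicative.ofAdd 1))
        (fun a => Monoid.Coprod.inl (FreeGroup.of a)))
    let g : Monoid.Coprod (FreeGroup α) (Multiplicative ℤ) →* FreeGroup (Option α) :=
      Monoid.Coprod.lift (FreeGroup.map some) (zpowersHom _ (FreeGroup.of none))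
    have hgf : g.comp f = MonoidHom.id _ := by
      apply FreeGroup.ext_hom
      intro o
      cases o with
      | none => simp [f, g]
      | some a => simp [f, g]
    refine hP.of_injective f ?_ (hP.coprod _ _ h hP.int)
    intro x y hxy
    have := congrArg g hxy
    have h1 : ∀ z, g (f z) = z := fun z => by
      have := DFunLike.congr_fun hgf z
      simpa using this
    rw [h1, h1] at this
    exact this

theorem freeGroup (α : Type) : P (FreeGroup α) := by
  classical
  -- colimit over finite subsets
  refine hP.colim (Finset α) (fun s => FreeGroup s)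
    (fun s t h => FreeGroup.map (fun a => ⟨a.1, Finset.mem_of_subset h a.2⟩)) (FreeGroup α)
    (fun s => FreeGroup.map Subtype.val) ?_ ?_ ?_ ?_ ?_ (fun s => hP.freeGroup_finite _)
  · intro s x
    exact FreeGroup.map.id x
  · intro i j k hij hjk x
    rw [FreeGroup.map.comp]
    rfl
  · intro i j h x
    rw [FreeGroup.map.comp]
    rfl
  · intro y
    refine FreeGroup.induction_on y ⟨∅, 1, by simp⟩
      (fun a => ⟨{a}, FreeGroup.of ⟨a, by simp⟩, by simp⟩)
      (fun a _ => ⟨{a}, (FreeGroup.of ⟨a, by simp⟩)⁻¹, by simp⟩) ?_
    · intro x y hx hy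
      obtain ⟨s, u, rfl⟩ := hx
      obtain ⟨t, v, rfl⟩ := hy
      refine ⟨s ∪ t, FreeGroup.map (fun a : s => (⟨a.1, Finset.mem_union_left _ a.2⟩ : ↥(s ∪ t))) u *
        FreeGroup.map (fun a : t => (⟨a.1, Finset.mem_union_right _ a.2⟩ : ↥(s ∪ t))) v, ?_⟩
      rw [map_mul, FreeGroup.map.comp, FreeGroup.map.comp]
      rfl
  · intro s x hx
    refine ⟨s, le_rfl, ?_⟩
    have hinj : Function.Injective (FreeGroup.map (Subtype.val : s → α)) :=
      FreeGroup.map_injective Subtype.val_injective
    have : x = 1 := hinj (by simpa using hx)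
    rw [this]; simp

end Inherit

end Pool.Agent.helper16.FJ
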