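import Pool.Agent.helper16.FJ.Iter

set_option autoImplicit false

/-!
# Classes of decompositions
-/

namespace Pool.Agent.helper16.FJ

variable {X : Type} [DecidableEq X] {o : X} {A Z Q : Type} [Group A] [Group Z] [Group Q]

/-- classes of homomorphisms to iterated wreath products -/
abbrev Cls (X A Z : Type) [Group A] [Group Z] : Type := ∀ s, (A →* WI X Z s) → Prop

/-- precompositions with the recursion of elements of a class -/
inductive Pre1 (ψ : A →* Wr A X) (𝒟 : Cls X A Z) : ∀ s, (A →* WI X Z s) → Prop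
  | mk {s : ℕ} {δ : A →* WI X Z s} : 𝒟 s δ → Pre1 ψ 𝒟 (s + 1) (prec ψ δ)

omit [DecidableEq X] in
theorem Pre1.mono {ψ : A →* Wr A X} {𝒟 𝒟' : Cls X A Z} (h : ∀ s δ, 𝒟 s δ → 𝒟' s δ) :
    ∀ s δ, Pre1 ψ 𝒟 s δ → Pre1 ψ 𝒟' s δ := by
  rintro _ _ ⟨hδ⟩
  exact ⟨h _ _ hδ⟩

theorem Pre1.iter_mono {ψ : A →* Wr A X} {𝒟 𝒟' : Cls X A Z} (h : ∀ s δ, 𝒟 s δ → 𝒟' s δ)
    (m : ℕ) : ∀ s δ, (Pre1 ψ)^[m] 𝒟 s δ → (Pre1 ψ)^[m] 𝒟' s δ := by
  induction m with
  | zero => exact h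
  | succ m ih =>
    rw [Function.iterate_succ_apply', Function.iterate_succ_apply']
    exact Pre1.mono ih

/-- if a class is closed under `Pre1` -/
theorem Pre1.iter_le {ψ : A →* Wr A X} {𝒟 : Cls X A Z} (h : ∀ s δ, Pre1 ψ 𝒟 s δ → 𝒟 s δ)
    (m : ℕ) : ∀ s δ, (Pre1 ψ)^[m] 𝒟 s δ → 𝒟 s δ := by
  induction m with
  | zero => exact fun _ _ h => h
  | succ m ih =>
    intro s δ hδ
    rw [Function.iterate_succ_apply'] at hδ
    exact h _ _ (Pre1.mono ih _ _ hδ)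

omit [DecidableEq X] in
/-- kill lemma for `Pre1` -/
theorem Pre1.kills {ψ : A →* Wr A X} {𝒟 : Cls X A Z} {N : Subgroup A}
    (h : ∀ s δ, 𝒟 s δ → ∀ u ∈ N, δ u = 1) :
    ∀ s δ, Pre1 ψ 𝒟 s δ → ∀ u ∈ preK ψ N, δ u = 1 := by
  rintro _ _ ⟨hδ⟩ u ⟨h1, h2⟩
  rename_i s δ
  change Wr.map δ (ψ u) = 1
  apply Wr.ext
  · exact h1
  · funext x
    exact h s δ hδ _ (h2 x)

theorem Pre1.iter_kills {ψ : A →* Wr A X} {𝒟 : Cls X A Z} {N : Subgroup A}
    (h : ∀ s δ, 𝒟 s δ → ∀ u ∈ N, δ u = 1) (m : ℕ) :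
    ∀ s δ, (Pre1 ψ)^[m] 𝒟 s δ → ∀ u ∈ (preK ψ)^[m] N, δ u = 1 := by
  induction m with
  | zero => exact h
  | succ m ih =>
    rw [Function.iterate_succ_apply', Function.iterate_succ_apply']
    exact Pre1.kills ih

/-- composites -/
inductive Comp (β : FF o A →* Z) (𝒞 : Cls X A Z) : ∀ s, (FF o A →* WI X Z s) → Prop
  | zero : Comp β 𝒞 0 β
  | succ {t : ℕ} {κ : FF o A →* WI X Z t} {h : A →* WI X Z t} :
      Comp β 𝒞 t κ → 𝒞 t h → Comp β 𝒞 (t + 1) (FF.ext o κ h : FF o A →* Wr (WI X Z t) X)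

/-- adding the standard decompositions -/
def Plus (ψ : A →* Wr A X) (α : A →* Z) (𝒱 : Cls X A Z) : Cls X A Z :=
  fun s δ => 𝒱 s δ ∨ δ = st ψ α s

omit [DecidableEq X] in
theorem Plus.mono {ψ : A →* Wr A X} {α : A →* Z} {𝒱 𝒱' : Cls X A Z}
    (h : ∀ s δ, 𝒱 s δ → 𝒱' s δ) : ∀ s δ, Plus ψ α 𝒱 s δ → Plus ψ α 𝒱' s δ :=
  fun _ _ hδ => hδ.imp (h _ _) id

theorem Comp.mono {β : FF o A →* Z} {𝒞 𝒞' : Cls X A Z} (h : ∀ s δ, 𝒞 s δ → 𝒞' s δ) :
    ∀ s δ, Comp β 𝒞 s δ → Comp β 𝒞' s δ := by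
  intro s δ hδ
  induction hδ with
  | zero => exact Comp.zero
  | succ _ hh ih => exact Comp.succ ih (h _ _ hh)

theorem Comp.kills {β : FF o A →* Z} {𝒞 : Cls X A Z} {K : Subgroup A} (hK : K.Normal)
    (hβ : ∀ u ∈ KF o K, β u = 1) (h : ∀ s δ, 𝒞 s δ → ∀ u ∈ K, δ u = 1) :
    ∀ s δ, Comp β 𝒞 s δ → ∀ u ∈ KF o K, δ u = 1 := by
  intro s δ hδ
  induction hδ with
  | zero => exact hβ
  | succ _ hh ih => exact ext_kills hK _ _ ih (h _ _ hh)

/-- auxiliary class -/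
def DD (c : Co o A) (α : A →* Z) (β : FF o A →* Z) (𝒱 : Cls X A Z) : Cls X (FF o A) Z :=
  fun s κ => Comp β (Plus c.ψ α 𝒱) s κ ∧ 𝒱 s (κ.comp c.j)

/-- the next class -/
noncomputable def Vnext (n : ℕ) (c : Co o A) (α : A →* Z) (β : FF o A →* Z)
    (𝒱 : ℕ → Cls X A Z) : ℕ → Cls X (FF o A) Z :=
  fun a => (Pre1 c.next.ψ)^[n + a] (DD c α β (𝒱 a))

theorem prec_eq_ext (c : Co o A) {s : ℕ} (κ : FF o A →* WI X Z s) :
    prec c.next.ψ κ = FF.ext o κ (κ.comp c.j) :=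
  FF.map_ext κ (MonoidHom.id _) c.j

theorem prec_comp_j (c : Co o A) {s : ℕ} (κ : FF o A →* WI X Z s) :
    (prec c.next.ψ κ).comp c.j = prec c.ψ (κ.comp c.j) := by
  apply MonoidHom.ext
  intro a
  change Wr.map κ (c.next.ψ (c.j a)) = Wr.map (κ.comp c.j) (c.ψ a)
  rw [Co.next_ψ_j]
  rfl

theorem st_comp_j (c : Co o A) (q : FF o A →* Q) (s : ℕ) :
    (st c.next.ψ q s).comp c.j = st c.ψ (q.comp c.j) s := by
  induction s with
  | zero => rfl
  | succ s ih =>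
    change (prec c.next.ψ (st c.next.ψ q s)).comp c.j = prec c.ψ (st c.ψ (q.comp c.j) s)
    rw [prec_comp_j, ih]

section props

variable {n : ℕ} {c : Co o A} {α : A →* Z} {β : FF o A →* Z} {𝒱 : ℕ → Cls X A Z}

theorem DD_mono {𝒱 𝒱' : Cls X A Z} (h : ∀ s δ, 𝒱 s δ → 𝒱' s δ) :
    ∀ s δ, DD c α β 𝒱 s δ → DD c α β 𝒱' s δ :=
  fun _ _ hδ => ⟨Comp.mono (Plus.mono h) _ _ hδ.1, h _ _ hδ.2⟩

theorem Pre1_DD {𝒱 : Cls X A Z} (hp : ∀ s δ, Pre1 c.ψ 𝒱 s δ → 𝒱 s δ) :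
    ∀ s δ, Pre1 c.next.ψ (DD c α β 𝒱) s δ → DD c α β 𝒱 s δ := by
  rintro _ _ ⟨hκ1, hκ2⟩
  refine ⟨?_, ?_⟩
  · rw [prec_eq_ext]
    exact Comp.succ hκ1 (Or.inl hκ2)
  · rw [prec_comp_j]
    exact hp _ _ ⟨hκ2⟩

theorem Vnext_mono (hm : ∀ a s δ, 𝒱 (a + 1) s δ → 𝒱 a s δ)
    (hp : ∀ a s δ, Pre1 c.ψ (𝒱 a) s δ → 𝒱 a s δ) :
    ∀ a s δ, Vnext n c α β 𝒱 (a + 1) s δ → Vnext n c α β 𝒱 a s δ := by
  intro a s δ hδ
  unfold Vnext at hδ ⊢
  rw [← add_assoc, Function.iterate_succ_apply] at hδ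
  refine Pre1.iter_mono ?_ _ _ _ hδ
  intro s δ hδ
  exact DD_mono (hm a) _ _ (Pre1_DD (hp (a + 1)) _ _ hδ)

theorem Vnext_pre (hp : ∀ a s δ, Pre1 c.ψ (𝒱 a) s δ → 𝒱 a s δ) :
    ∀ a s δ, Pre1 c.next.ψ (Vnext n c α β 𝒱 a) s δ → Vnext n c α β 𝒱 a s δ := by
  intro a s δ hδ
  unfold Vnext at hδ ⊢
  rw [← Function.iterate_succ_apply' (Pre1 c.next.ψ), Function.iterate_succ_apply] at hδ
  exact Pre1.iter_mono (Pre1_DD (hp a)) _ _ _ hδ

theorem Vnext_kills {K : Subgroup A} (hK : K.Normal) (hinv : K ≤ preK c.ψ K)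
    (hα : ∀ u ∈ K, α u = 1) (hβ : ∀ u ∈ KF o K, β u = 1)
    (h : ∀ a s δ, 𝒱 a s δ → ∀ u ∈ K, δ u = 1) :
    ∀ a s δ, Vnext n c α β 𝒱 a s δ → ∀ u ∈ (preK c.next.ψ)^[n] (c.RR K), δ u = 1 := by
  intro a s δ hδ u hu
  have h1 : u ∈ (preK c.next.ψ)^[n + a] (c.RR K) :=
    preK_iter_le _ (c.RR_inv hK hinv) (Nat.le_add_right n a) hu
  refine Pre1.iter_kills ?_ (n + a) s δ hδ u h1
  rintro s κ ⟨hκ1, hκ2⟩
  apply c.kills_RR κ
  · exact h a s _ hκ2
  · refine Comp.kills hK hβ ?_ s κ hκ1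
    rintro s δ (hδ | rfl)
    · exact h a s δ hδ
    · exact st_kills c.ψ α hinv hα s

theorem Vnext_coh (π : Z →* Q) (q : FF o A →* Q) (hβ : π.comp β = q)
    (hα : π.comp α = q.comp c.j)
    (h : ∀ a s δ, 𝒱 a s δ → (WI.map π s).comp δ = st c.ψ (q.comp c.j) s) :
    ∀ a s δ, Vnext n c α β 𝒱 a s δ → (WI.map π s).comp δ = st c.next.ψ q s := by
  intro a
  -- composites
  have hC : ∀ s δ, Comp β (Plus c.ψ α (𝒱 a)) s δ → (WI.map π s).comp δ = st c.next.ψ q s := by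
    intro s δ hδ
    induction hδ with
    | zero => exact hβ
    | @succ t κ h' _ hh ih =>
      have hh' : (WI.map π t).comp h' = st c.ψ (q.comp c.j) t := by
        rcases hh with hh | rfl
        · exact h a _ _ hh
        · have : ∀ s, (WI.map π s).comp (st c.ψ α s) = st c.ψ (q.comp c.j) s := by
            intro s
            induction s with
            | zero => exact hα
            | succ s ih =>
              change prec c.ψ ((WI.map π s).comp (st c.ψ α s)) = prec c.ψ _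
              rw [ih]
          exact this t
      have e1 : (WI.map π (t + 1)).comp (FF.ext o κ h' : FF o A →* Wr (WI X Z t) X) =
          FF.ext o ((WI.map π t).comp κ) ((WI.map π t).comp h') :=
        FF.map_ext (WI.map π t) κ h'
      have e2 : st c.next.ψ q (t + 1) =
          FF.ext o (st c.next.ψ q t) ((st c.next.ψ q t).comp c.j) :=
        prec_eq_ext c (st c.next.ψ q t)
      rw [e2, st_comp_j]
      rw [ih, hh'] at e1
      exact e1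
  intro s δ hδ
  have key : ∀ m s δ, (Pre1 c.next.ψ)^[m] (DD c α β (𝒱 a)) s δ →
      (WI.map π s).comp δ = st c.next.ψ q s := by
    intro m
    induction m with
    | zero => exact fun s δ hδ => hC s δ hδ.1
    | succ m ih =>
      intro s δ hδ
      rw [Function.iterate_succ_apply'] at hδ
      obtain ⟨hδ⟩ := hδ
      rename_i s δ
      change prec c.next.ψ ((WI.map π s).comp δ) = prec c.next.ψ _
      rw [ih s δ hδ]
  exact key _ s δ hδ

end props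

/-- Extension property. -/
def Ext (n : ℕ) (c : Co o A) (α : A →* Z) (β : FF o A →* Z) (𝒱 : ℕ → Cls X A Z) : Prop :=
  ∀ a s u, 𝒱 (2 * a + n) s u → ∃ δ, Vnext n c α β 𝒱 a s δ ∧ δ.comp c.j = u

theorem Ext.step {n : ℕ} {c : Co o A} {α : FF o A →* Z} {β : FF o (FF o A) →* Z}
    {𝒱 : ℕ → Cls X A Z}
    (hm : ∀ a s δ, 𝒱 (a + 1) s δ → 𝒱 a s δ)
    (hp : ∀ a s δ, Pre1 c.ψ (𝒱 a) s δ → 𝒱 a s δ)
    (hE : Ext n c (α.comp c.j) (β.comp (FF.map o c.j)) 𝒱) :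
    Ext n c.next α β (Vnext n c (α.comp c.j) (β.comp (FF.map o c.j)) 𝒱) := by
  intro a s u hu
  have hm' : ∀ k s δ, 𝒱 (k + a) s δ → 𝒱 a s δ := by
    intro k
    induction k with
    | zero => intro s δ h; rwa [Nat.zero_add] at h
    | succ k ih =>
      intro s δ h
      apply ih
      apply hm
      rwa [show k + a + 1 = k + 1 + a by omega]
  have hmc : ∀ s δ, 𝒱 (2 * a + n) s δ → 𝒱 a s δ := by
    intro s δ h
    apply hm' (a + n)
    rwa [show a + n + a = 2 * a + n by omega]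
  -- composites can be extended
  have claimA : ∀ s κ', Comp (β.comp (FF.map o c.j)) (Plus c.ψ (α.comp c.j) (𝒱 (2 * a + n))) s κ' →
      ∃ κ, Comp β (Plus c.next.ψ α
        (Vnext n c (α.comp c.j) (β.comp (FF.map o c.j)) 𝒱 a)) s κ ∧ κ.comp c.next.j = κ' := by
    intro s κ' hκ'
    induction hκ' with
    | zero => exact ⟨β, Comp.zero, rfl⟩
    | @succ t κ1 h' _ hh ih =>
      obtain ⟨κ, hκ, hκj⟩ := ih
      have h1 : ∃ h : FF o A →* WI X Z t, Plus c.next.ψ α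
          (Vnext n c (α.comp c.j) (β.comp (FF.map o c.j)) 𝒱 a) t h ∧ h.comp c.j = h' := by
        rcases hh with hh | rfl
        · obtain ⟨h, hh1, hh2⟩ := hE a t h' hh
          exact ⟨h, Or.inl hh1, hh2⟩
        · exact ⟨st c.next.ψ α t, Or.inr rfl, st_comp_j c α t⟩
      obtain ⟨h, hh1, hh2⟩ := h1
      refine ⟨_, Comp.succ hκ hh1, ?_⟩
      have e1 : (FF.ext o κ h).comp (FF.map o c.j) =
          FF.ext o (κ.comp (FF.map o c.j)) (h.comp c.j) := FF.ext_map κ h c.j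
      rw [Co.next_j] at hκj
      rw [hκj, hh2] at e1
      exact e1
  -- iterated precompositions can be extended
  have claimB : ∀ m s u', (Pre1 c.next.ψ)^[m]
      (DD c (α.comp c.j) (β.comp (FF.map o c.j)) (𝒱 (2 * a + n))) s u' →
      ∃ κ, Comp β (Plus c.next.ψ α
        (Vnext n c (α.comp c.j) (β.comp (FF.map o c.j)) 𝒱 a)) s κ ∧ κ.comp c.next.j = u' := by
    intro m
    induction m with
    | zero => exact fun s u' hu' => claimA s u' hu'.1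
    | succ m ih =>
      intro s u' hu'
      rw [Function.iterate_succ_apply'] at hu'
      obtain ⟨hu'⟩ := hu'
      rename_i s u'
      obtain ⟨κ, hκ, hκj⟩ := ih s u' hu'
      have h1 : 𝒱 (2 * a + n) s (u'.comp c.j) :=
        (Pre1.iter_le (Pre1_DD (hp _)) m s u' hu').2
      obtain ⟨h, hh1, hh2⟩ := hE a s _ h1
      refine ⟨_, Comp.succ hκ (Or.inl hh1), ?_⟩
      have e1 : (FF.ext o κ h).comp (FF.map o c.j) =
          FF.ext o (κ.comp (FF.map o c.j)) (h.comp c.j) := FF.ext_map κ h c.j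
      rw [Co.next_j] at hκj
      rw [hκj, hh2] at e1
      rw [prec_eq_ext]
      exact e1
  -- final step
  have claimC : ∀ m s u', (Pre1 c.next.ψ)^[m] ((Pre1 c.next.ψ)^[n + a]
      (DD c (α.comp c.j) (β.comp (FF.map o c.j)) (𝒱 (2 * a + n)))) s u' →
      ∃ δ, (Pre1 c.next.next.ψ)^[m] (DD c.next α β
        (Vnext n c (α.comp c.j) (β.comp (FF.map o c.j)) 𝒱 a)) s δ ∧
        δ.comp c.next.j = u' := by
    intro m
    induction m with
    | zero =>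
      intro s u' hu'
      obtain ⟨κ, hκ, hκj⟩ := claimB (n + a) s u' hu'
      refine ⟨κ, ⟨hκ, ?_⟩, hκj⟩
      rw [hκj]
      exact Pre1.iter_mono (DD_mono hmc) _ _ _ hu'
    | succ m ih =>
      intro s u' hu'
      rw [Function.iterate_succ_apply'] at hu'
      obtain ⟨hu'⟩ := hu'
      rename_i s u'
      obtain ⟨δ, hδ, hδj⟩ := ih s u' hu'
      refine ⟨prec c.next.next.ψ δ, ?_, ?_⟩
      · rw [Function.iterate_succ_apply']
        exact ⟨hδ⟩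
      · rw [prec_comp_j, hδj]
  have hu2 : (Pre1 c.next.ψ)^[n + a] ((Pre1 c.next.ψ)^[n + a]
      (DD c (α.comp c.j) (β.comp (FF.map o c.j)) (𝒱 (2 * a + n)))) s u := by
    rw [← Function.iterate_add_apply]
    have : n + a + (n + a) = n + (2 * a + n) := by omega
    rw [this]
    exact hu
  exact claimC (n + a) s u hu2

end Pool.Agent.helper16.FJ
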