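import Pool.Agent.helper16.FJ.Recursion

set_option autoImplicit false

/-!
# The functor `F`
-/

namespace Pool.Agent.helper16.FJ

variable {X : Type}

/-! ### More on wreath products -/

namespace Wr

theorem map_id' {F : Type} [Group F] (a : Wr F X) : Wr.map (MonoidHom.id F) a = a := rfl

theorem map_map {F F' F'' : Type} [Group F] [Group F'] [Group F''] (f : F →* F') (g : F' →* F'')
    (a : Wr F X) : Wr.map g (Wr.map f a) = Wr.map (g.comp f) a := rfl

theorem map_surjective {F F' : Type} [Group F] [Group F'] (f : F →* F')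
    (hf : Function.Surjective f) : Function.Surjective (Wr.map (X := X) f) := by
  intro w
  choose g hg using hf
  refine ⟨⟨w.perm, fun x => g (w.sec x)⟩, ?_⟩
  apply Wr.ext
  · rfl
  · funext x
    exact hg _

end Wr

/-- Sequences with finite range of elements of `A ≀ Sym(X)` which fix `o` and have trivial section
at `o`. -/
def VS (o : X) (A : Type) [Group A] : Subgroup (ℕ → Wr A X) where
  carrier := {b | (Set.range b).Finite ∧ ∀ n, (b n).perm o = o ∧ (b n).sec o = 1}
  mul_mem' := by
    rintro a b ⟨ha, ha'⟩ ⟨hb, hb'⟩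
    refine ⟨(ha.mul hb).subset ?_, fun n => ⟨?_, ?_⟩⟩
    · rintro _ ⟨n, rfl⟩
      exact Set.mul_mem_mul ⟨n, rfl⟩ ⟨n, rfl⟩
    · rw [Pi.mul_apply, Wr.mul_perm, Equiv.Perm.mul_apply, (hb' n).1, (ha' n).1]
    · rw [Pi.mul_apply, Wr.mul_sec, (hb' n).1, (hb' n).2, (ha' n).2, mul_one]
  one_mem' := by
    refine ⟨(Set.finite_singleton 1).subset ?_, fun n => ⟨rfl, rfl⟩⟩
    rintro _ ⟨n, rfl⟩
    rfl
  inv_mem' := by
    rintro a ⟨ha, ha'⟩
    have h1 : ∀ n, (a n).perm⁻¹ o = o := by
      intro n
      nth_rewrite 1 [← (ha' n).1]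
      exact perm_inv_apply _ _
    refine ⟨ha.inv.subset ?_, fun n => ⟨?_, ?_⟩⟩
    · rintro _ ⟨n, rfl⟩
      rw [Set.mem_inv]
      exact ⟨n, by simp⟩
    · exact h1 n
    · rw [Pi.inv_apply, Wr.inv_sec, h1, (ha' n).2, inv_one]

namespace VS

variable {o : X} {A : Type} [Group A]

theorem perm_o (b : VS o A) (n : ℕ) : (b.1 n).perm o = o := (b.2.2 n).1
theorem sec_o (b : VS o A) (n : ℕ) : (b.1 n).sec o = 1 := (b.2.2 n).2

theorem perm_ne (b : VS o A) (n : ℕ) {x : X} (hx : x ≠ o) : (b.1 n).perm x ≠ o := by
  intro hc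
  apply hx
  apply (b.1 n).perm.injective
  rw [hc, perm_o]

variable (o A) in
/-- the shift -/
def shift : VS o A →* VS o A where
  toFun b := ⟨fun n => b.1 (n + 1), b.2.1.subset (by rintro _ ⟨n, rfl⟩; exact ⟨n + 1, rfl⟩),
    fun n => b.2.2 (n + 1)⟩
  map_one' := rfl
  map_mul' _ _ := rfl

@[simp] theorem shift_apply (b : VS o A) (n : ℕ) : (shift o A b).1 n = b.1 (n + 1) := rfl

variable (o) in
/-- functoriality -/
def map {B : Type} [Group B] (f : A →* B) : VS o A →* VS o B where
  toFun b := ⟨fun n => Wr.map f (b.1 n),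
    (b.2.1.image (Wr.map f)).subset (by rintro _ ⟨n, rfl⟩; exact ⟨b.1 n, ⟨n, rfl⟩, rfl⟩),
    fun n => ⟨perm_o b n, by rw [Wr.map_sec, sec_o b n, map_one]⟩⟩
  map_one' := by
    apply Subtype.ext
    funext n
    exact map_one (Wr.map f)
  map_mul' a b := by
    apply Subtype.ext
    funext n
    exact map_mul (Wr.map f) _ _

@[simp] theorem map_apply {B : Type} [Group B] (f : A →* B) (b : VS o A) (n : ℕ) :
    (map o f b).1 n = Wr.map f (b.1 n) := rfl

theorem shift_map {B : Type} [Group B] (f : A →* B) (b : VS o A) :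
    shift o B (map o f b) = map o f (shift o A b) := rfl

theorem map_map {B D : Type} [Group B] [Group D] (f : A →* B) (g : B →* D) (b : VS o A) :
    map o g (map o f b) = map o (g.comp f) b := rfl

theorem map_id (b : VS o A) : map o (MonoidHom.id A) b = b := rfl

theorem map_surjective {B : Type} [Group B] (f : A →* B) (hf : Function.Surjective f) :
    Function.Surjective (map o f) := by
  classical
  intro b
  choose g hg using hf
  let G : Wr B X → Wr A X := fun w => ⟨w.perm, fun x => if x = o then 1 else g (w.sec x)⟩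
  refine ⟨⟨fun n => G (b.1 n), (b.2.1.image G).subset
    (by rintro _ ⟨n, rfl⟩; exact ⟨b.1 n, ⟨n, rfl⟩, rfl⟩),
    fun n => ⟨perm_o b n, by simp [G]⟩⟩, ?_⟩
  apply Subtype.ext
  funext n
  apply Wr.ext
  · rfl
  · funext x
    change f (if x = o then 1 else g ((b.1 n).sec x)) = _
    by_cases hx : x = o
    · subst hx
      rw [if_pos rfl, map_one, sec_o b n]
    · rw [if_neg hx, hg]

end VS

theorem Inherit.VS {P : ∀ (G : Type) [Group G], Prop} (hP : Inherit P) [Finite X] (o : X)
    {A : Type} [Group A] (hA : P A) : P (VS o A) :=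
  hP.finite_range_seq (hP.wr hA X) (FJ.VS o A) fun _ hs => hs.1

/-- non-constant rays (different from `o^∞`) -/
def NR (o : X) : Type := {ξ : ℕ → X // ξ ≠ fun _ => o}

/-- The functor `F`. -/
def FF (o : X) (A : Type) [Group A] : Type :=
  Monoid.Coprod (Wr A X) (Monoid.Coprod (VS o A) (FreeGroup (NR o)))

instance (o : X) (A : Type) [Group A] : Group (FF o A) :=
  inferInstanceAs (Group (Monoid.Coprod (Wr A X) (Monoid.Coprod (VS o A) (FreeGroup (NR o)))))

theorem Inherit.FF {P : ∀ (G : Type) [Group G], Prop} (hP : Inherit P) [Finite X] (o : X)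
    {A : Type} [Group A] (hA : P A) : P (FF o A) :=
  hP.coprod _ _ (hP.wr hA X) (hP.coprod _ _ (hP.VS o hA) (hP.freeGroup _))

namespace FF

variable (o : X) (A : Type) [Group A]

/-- letters with sections in `A` -/
def inW : Wr A X →* FF o A := Monoid.Coprod.inl

/-- letters directed along `o^∞` -/
def inV : VS o A →* FF o A := Monoid.Coprod.inr.comp Monoid.Coprod.inl

open Classical in
/-- letters moving rays -/
noncomputable def tt (ξ : ℕ → X) : FF o A :=
  if h : ξ = fun _ => o then 1
  else Monoid.Coprod.inr (Monoid.Coprod.inr (FreeGroup.of ⟨ξ, h⟩))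

theorem tt_const : tt o A (fun _ => o) = 1 := by simp [tt]

theorem tt_of (ξ : NR o) :
    tt o A ξ.1 = Monoid.Coprod.inr (Monoid.Coprod.inr (FreeGroup.of ξ)) :=
  dif_neg ξ.2

variable {A}

/-- universal property -/
def lift {W : Type} [Group W] (w : Wr A X →* W) (v : VS o A →* W) (t : (ℕ → X) → W) :
    FF o A →* W :=
  Monoid.Coprod.lift w (Monoid.Coprod.lift v (FreeGroup.lift fun ξ : NR o => t ξ.1))

section lift

variable {o}
variable {W : Type} [Group W] (w : Wr A X →* W) (v : VS o A →* W) (t : (ℕ → X) → W)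

@[simp] theorem lift_inW (a : Wr A X) : lift o w v t (inW o A a) = w a :=
  Monoid.Coprod.lift_apply_inl _ _ _

@[simp] theorem lift_inV (b : VS o A) : lift o w v t (inV o A b) = v b := by
  have h1 : lift o w v t (inV o A b) =
    Monoid.Coprod.lift v (FreeGroup.lift fun ξ : NR o => t ξ.1) (Monoid.Coprod.inl b) :=
    Monoid.Coprod.lift_apply_inr _ _ _
  rw [h1]
  exact Monoid.Coprod.lift_apply_inl _ _ _

theorem lift_tt (ht : t (fun _ => o) = 1) (ξ : ℕ → X) : lift o w v t (tt o A ξ) = t ξ := by
  by_cases h : ξ = fun _ => o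
  · subst h
    rw [tt_const, map_one, ht]
  · rw [tt_of o A ⟨ξ, h⟩]
    have h1 : lift o w v t (Monoid.Coprod.inr (Monoid.Coprod.inr (FreeGroup.of ⟨ξ, h⟩)) : FF o A) =
      Monoid.Coprod.lift v (FreeGroup.lift fun ξ : NR o => t ξ.1)
        (Monoid.Coprod.inr (FreeGroup.of ⟨ξ, h⟩)) :=
      Monoid.Coprod.lift_apply_inr _ _ _
    rw [h1, Monoid.Coprod.lift_apply_inr]
    exact FreeGroup.lift_apply_of

theorem hom_ext {f g : FF o A →* W} (h1 : ∀ a, f (inW o A a) = g (inW o A a))
    (h2 : ∀ b, f (inV o A b) = g (inV o A b)) (h3 : ∀ ξ, f (tt o A ξ) = g (tt o A ξ)) :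
    f = g := by
  apply Monoid.Coprod.hom_ext
  · exact MonoidHom.ext h1
  · apply Monoid.Coprod.hom_ext
    · exact MonoidHom.ext h2
    · apply FreeGroup.ext_hom
      intro ξ
      have := h3 ξ.1
      rw [tt_of o A ξ] at this
      exact this

end lift

variable (A) in
theorem gen : Subgroup.closure
    (Set.range (inW o A) ∪ Set.range (inV o A) ∪ Set.range (tt o A)) = ⊤ := by
  rw [eq_top_iff]
  rintro u -
  have key : ∀ v : Monoid.Coprod (VS o A) (FreeGroup (NR o)),
      (Monoid.Coprod.inr v : FF o A) ∈ Subgroup.closure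
        (Set.range (inW o A) ∪ Set.range (inV o A) ∪ Set.range (tt o A)) := by
    intro v
    induction v using Monoid.Coprod.induction_on with
    | inl m => exact Subgroup.subset_closure (Or.inl (Or.inr ⟨m, rfl⟩))
    | inr n =>
      induction n using FreeGroup.induction_on with
      | C1 =>
        have : (Monoid.Coprod.inr (Monoid.Coprod.inr (1 : FreeGroup (NR o))) : FF o A) = 1 := by
          rw [map_one]; exact map_one _
        rw [this]
        exact one_mem _
      | of ξ => exact Subgroup.subset_closure (Or.inr ⟨ξ.1, tt_of o A ξ⟩)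
      | inv_of ξ h =>
        have : (Monoid.Coprod.inr (Monoid.Coprod.inr (FreeGroup.of ξ)⁻¹) : FF o A) =
          (Monoid.Coprod.inr (Monoid.Coprod.inr (FreeGroup.of ξ)) : FF o A)⁻¹ := by
          rw [map_inv]; exact map_inv _ _
        rw [this]
        exact inv_mem h
      | mul a b ha hb =>
        have : (Monoid.Coprod.inr (Monoid.Coprod.inr (a * b)) : FF o A) =
          (Monoid.Coprod.inr (Monoid.Coprod.inr a) : FF o A) *
            (Monoid.Coprod.inr (Monoid.Coprod.inr b) : FF o A) := by
          rw [map_mul]; exact map_mul _ _ _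
        rw [this]
        exact mul_mem ha hb
    | mul a b ha hb =>
      have : (Monoid.Coprod.inr (a * b) : FF o A) =
          (Monoid.Coprod.inr a : FF o A) * (Monoid.Coprod.inr b : FF o A) := map_mul _ _ _
      rw [this]
      exact mul_mem ha hb
  induction u using Monoid.Coprod.induction_on with
  | inl m => exact Subgroup.subset_closure (Or.inl (Or.inl ⟨m, rfl⟩))
  | inr n => exact key n
  | mul a b ha hb => exact mul_mem ha hb

variable {B : Type} [Group B]

/-- functoriality -/
noncomputable def map (f : A →* B) : FF o A →* FF o B :=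
  lift o ((inW o B).comp (Wr.map f)) ((inV o B).comp (VS.map o f)) (tt o B)

variable {o}

@[simp] theorem map_inW (f : A →* B) (a : Wr A X) :
    map o f (inW o A a) = inW o B (Wr.map f a) := by simp [map]
@[simp] theorem map_inV (f : A →* B) (b : VS o A) :
    map o f (inV o A b) = inV o B (VS.map o f b) := by simp [map]
@[simp] theorem map_tt (f : A →* B) (ξ : ℕ → X) : map o f (tt o A ξ) = tt o B ξ :=
  lift_tt _ _ _ (tt_const o B) ξ

theorem map_comp {D : Type} [Group D] (f : A →* B) (g : B →* D) :
    (map o g).comp (map o f) = map o (g.comp f) := by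
  apply hom_ext
  · intro a; simp [Wr.map_map]
  · intro b; simp [VS.map_map]
  · intro ξ; simp

theorem map_map {D : Type} [Group D] (f : A →* B) (g : B →* D) (u : FF o A) :
    map o g (map o f u) = map o (g.comp f) u := DFunLike.congr_fun (map_comp f g) u

theorem map_surjective (f : A →* B) (hf : Function.Surjective f) :
    Function.Surjective (map o f) := by
  rw [← MonoidHom.range_eq_top, eq_top_iff, ← gen o B, Subgroup.closure_le]
  rintro _ ((⟨a, rfl⟩ | ⟨b, rfl⟩) | ⟨ξ, rfl⟩)
  · obtain ⟨a', rfl⟩ := Wr.map_surjective f hf a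
    exact ⟨inW o A a', map_inW f a'⟩
  · obtain ⟨b', rfl⟩ := VS.map_surjective f hf b
    exact ⟨inV o A b', map_inV f b'⟩
  · exact ⟨tt o A ξ, map_tt f ξ⟩

/-! ### The operation `ext` -/

section ext

variable [DecidableEq X] {W W' : Type} [Group W] [Group W']

variable (o) in
/-- part of `ext` -/
def extV (κ : FF o A →* W) (h : A →* W) : VS o A →* Wr W X where
  toFun b := ⟨(b.1 0).perm, fun x => if x = o then κ (inV o A (VS.shift o A b)) else
    h ((b.1 0).sec x)⟩
  map_one' := by
    apply Wr.ext
    · rfl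
    · funext x
      by_cases hx : x = o
      · simp only [hx, if_true]
        rw [map_one, map_one, map_one]
        rfl
      · simp only [hx, if_false]
        exact map_one h
  map_mul' a b := by
    apply Wr.ext
    · rfl
    · funext x
      simp only [Wr.mul_sec]
      by_cases hx : x = o
      · subst hx
        rw [VS.perm_o b, if_pos rfl, if_pos rfl, if_pos rfl, map_mul, map_mul, map_mul]
      · rw [if_neg hx, if_neg hx, if_neg (VS.perm_ne b 0 hx), ← map_mul]
        rfl

variable (o) in
/-- Given homomorphisms `κ : F(A) → W` and `h : A → W`, the letters of `F(A)` are mapped to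
`W ≀ Sym(X)`: sections which are elements of `A` are mapped by `h`, sections which are letters
by `κ`. -/
noncomputable def ext (κ : FF o A →* W) (h : A →* W) : FF o A →* Wr W X :=
  lift o (Wr.map h) (extV o κ h)
    (fun ξ => ⟨Equiv.swap o (ξ 0), fun x => if x = o then κ (tt o A (FJ.shift ξ)) else 1⟩)

@[simp] theorem ext_inW (κ : FF o A →* W) (h : A →* W) (a : Wr A X) :
    ext o κ h (inW o A a) = Wr.map h a := by simp [ext]

@[simp] theorem ext_inV (κ : FF o A →* W) (h : A →* W) (b : VS o A) :
    ext o κ h (inV o A b) = extV o κ h b := by simp [ext]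

theorem ext_tt (κ : FF o A →* W) (h : A →* W) (ξ : ℕ → X) :
    ext o κ h (tt o A ξ) =
      ⟨Equiv.swap o (ξ 0), fun x => if x = o then κ (tt o A (FJ.shift ξ)) else 1⟩ := by
  refine lift_tt _ _ _ ?_ ξ
  apply Wr.ext
  · exact Equiv.swap_self o
  · funext x
    by_cases hx : x = o
    · simp only [hx, if_true, shift_const, tt_const, map_one]
      rfl
    · simp only [hx, if_false]
      rfl

theorem map_ext (f : W →* W') (κ : FF o A →* W) (h : A →* W) :
    (Wr.map f).comp (ext o κ h) = ext o (f.comp κ) (f.comp h) := by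
  apply hom_ext
  · intro a
    simp [Wr.map_map]
  · intro b
    simp only [MonoidHom.comp_apply, ext_inV]
    apply Wr.ext
    · rfl
    · funext x
      simp only [extV, MonoidHom.coe_mk, OneHom.coe_mk, Wr.map_sec]
      split_ifs <;> rfl
  · intro ξ
    simp only [MonoidHom.comp_apply, ext_tt]
    apply Wr.ext
    · rfl
    · funext x
      simp only [Wr.map_sec]
      split_ifs
      · rfl
      · exact map_one f

theorem ext_map (κ : FF o B →* W) (h : B →* W) (f : A →* B) :
    (ext o κ h).comp (map o f) = ext o (κ.comp (map o f)) (h.comp f) := by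
  apply hom_ext
  · intro a
    simp [Wr.map_map]
  · intro b
    simp only [MonoidHom.comp_apply, ext_inV, map_inV]
    apply Wr.ext
    · rfl
    · funext x
      simp only [extV, MonoidHom.coe_mk, OneHom.coe_mk, MonoidHom.comp_apply, map_inV,
        VS.shift_map]
      rfl
  · intro ξ
    simp only [MonoidHom.comp_apply, ext_tt, map_tt]

end ext

end FF

end Pool.Agent.helper16.FJ
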