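import Pool.Agent.helper16.FJ.Real

set_option autoImplicit false

/-!
# Iterated wreath products, kernels
-/

namespace Pool.Agent.helper16.FJ

/-- bundled groups -/
structure GrpB where
  /-- carrier -/
  G : Type
  /-- structure -/
  grp : Group G

/-- iterated wreath products, bundled -/
def WIb (X Z : Type) [Group Z] : ℕ → GrpB
  | 0 => ⟨Z, inferInstance⟩
  | s + 1 => letI := (WIb X Z s).grp; ⟨Wr (WIb X Z s).G X, inferInstance⟩

/-- iterated wreath products -/
def WI (X Z : Type) [Group Z] (s : ℕ) : Type := (WIb X Z s).G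

instance (X Z : Type) [Group Z] (s : ℕ) : Group (WI X Z s) := (WIb X Z s).grp

theorem Inherit.WI {P : ∀ (G : Type) [Group G], Prop} (hP : Inherit P) (X Z : Type) [Finite X]
    [Group Z] (hZ : P Z) (s : ℕ) : P (WI X Z s) := by
  induction s with
  | zero => exact hZ
  | succ s ih => exact hP.wr ih X

variable {X : Type} {A Z Q : Type} [Group A] [Group Z] [Group Q]

/-- functoriality -/
def WI.map (π : Z →* Q) : ∀ s, WI X Z s →* WI X Q s
  | 0 => π
  | s + 1 => (Wr.map (F := WI X Z s) (F' := WI X Q s) (X := X) (WI.map π s) :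
      Wr (WI X Z s) X →* Wr (WI X Q s) X)

/-- precomposition with the recursion -/
def prec (ψ : A →* Wr A X) {s : ℕ} (δ : A →* WI X Z s) : A →* WI X Z (s + 1) :=
  (Wr.map δ).comp ψ

/-- standard decompositions -/
def st (ψ : A →* Wr A X) (α : A →* Z) : ∀ s, A →* WI X Z s
  | 0 => α
  | s + 1 => prec ψ (st ψ α s)

theorem map_prec (ψ : A →* Wr A X) (π : Z →* Q) {s : ℕ} (δ : A →* WI X Z s) :
    (WI.map π (s + 1)).comp (prec ψ δ) = prec ψ ((WI.map π s).comp δ) := rfl

/-! ### Kernels -/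

/-- elements acting trivially at the first level with sections in `N` -/
def preK (ψ : A →* Wr A X) (N : Subgroup A) : Subgroup A where
  carrier := {u | (ψ u).perm = 1 ∧ ∀ x, (ψ u).sec x ∈ N}
  mul_mem' := by
    rintro a b ⟨ha, ha'⟩ ⟨hb, hb'⟩
    refine ⟨?_, fun x => ?_⟩
    · rw [map_mul, Wr.mul_perm, ha, hb, one_mul]
    · rw [map_mul, Wr.mul_sec]
      exact mul_mem (ha' _) (hb' _)
  one_mem' := by
    refine ⟨?_, fun x => ?_⟩
    · rw [map_one]; rfl
    · rw [map_one]; exact one_mem _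
  inv_mem' := by
    rintro a ⟨ha, ha'⟩
    refine ⟨?_, fun x => ?_⟩
    · rw [map_inv, Wr.inv_perm, ha, inv_one]
    · rw [map_inv, Wr.inv_sec]
      exact inv_mem (ha' _)

theorem mem_preK {ψ : A →* Wr A X} {N : Subgroup A} {u : A} :
    u ∈ preK ψ N ↔ (ψ u).perm = 1 ∧ ∀ x, (ψ u).sec x ∈ N := Iff.rfl

theorem preK_mono (ψ : A →* Wr A X) {N N' : Subgroup A} (h : N ≤ N') :
    preK ψ N ≤ preK ψ N' := fun _ hu => ⟨hu.1, fun x => h (hu.2 x)⟩

theorem preK_normal (ψ : A →* Wr A X) {N : Subgroup A} (hN : N.Normal) : (preK ψ N).Normal := by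
  constructor
  rintro u ⟨h1, h2⟩ g
  refine ⟨?_, fun x => ?_⟩
  · rw [map_mul, map_mul, map_inv, Wr.mul_perm, Wr.mul_perm, Wr.inv_perm, h1, mul_one,
      mul_inv_cancel]
  · rw [map_mul, map_mul, map_inv]
    simp only [Wr.mul_sec, Wr.inv_sec, Wr.inv_perm, h1, Equiv.Perm.one_apply]
    exact hN.conj_mem _ (h2 _) _

theorem preK_iter_mono (ψ : A →* Wr A X) {N N' : Subgroup A} (h : N ≤ N') (n : ℕ) :
    (preK ψ)^[n] N ≤ (preK ψ)^[n] N' := by
  induction n with
  | zero => exact h
  | succ n ih =>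
    rw [Function.iterate_succ_apply', Function.iterate_succ_apply']
    exact preK_mono ψ ih

theorem preK_iter_normal (ψ : A →* Wr A X) {N : Subgroup A} (hN : N.Normal) (n : ℕ) :
    ((preK ψ)^[n] N).Normal := by
  induction n with
  | zero => exact hN
  | succ n ih =>
    rw [Function.iterate_succ_apply']
    exact preK_normal ψ ih

theorem preK_iter_le (ψ : A →* Wr A X) {N : Subgroup A} (h : N ≤ preK ψ N) {m n : ℕ}
    (hmn : m ≤ n) : (preK ψ)^[m] N ≤ (preK ψ)^[n] N := by
  obtain ⟨k, rfl⟩ := Nat.exists_eq_add_of_le hmn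
  rw [Function.iterate_add_apply]
  apply preK_iter_mono
  clear hmn
  induction k with
  | zero => exact le_rfl
  | succ k ih =>
    rw [Function.iterate_succ_apply']
    exact h.trans (preK_mono ψ ih)

theorem le_preK_iter (ψ : A →* Wr A X) {N : Subgroup A} (h : N ≤ preK ψ N) (n : ℕ) :
    N ≤ (preK ψ)^[n] N := preK_iter_le ψ h (Nat.zero_le n)

theorem preK_iter_inv (ψ : A →* Wr A X) {N : Subgroup A} (h : N ≤ preK ψ N) (n : ℕ) :
    (preK ψ)^[n] N ≤ preK ψ ((preK ψ)^[n] N) := by
  rw [← Function.iterate_succ_apply' (preK ψ) n N]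
  exact preK_iter_le ψ h (Nat.le_succ n)

theorem preK_le_ker {ψ : A →* Wr A X} {φ : A →* PA X} (h : Compat ψ φ) {N : Subgroup A}
    (hN : N ≤ φ.ker) : preK ψ N ≤ φ.ker := by
  rintro u ⟨h1, h2⟩
  rw [MonoidHom.mem_ker, PA.sec_eq_one_iff]
  exact ⟨by rw [h.root, h1], fun x => by rw [h.sec]; exact hN (h2 x)⟩

theorem preK_iter_le_ker {ψ : A →* Wr A X} {φ : A →* PA X} (h : Compat ψ φ) {N : Subgroup A}
    (hN : N ≤ φ.ker) (n : ℕ) : (preK ψ)^[n] N ≤ φ.ker := by
  induction n with
  | zero => exact hN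
  | succ n ih =>
    rw [Function.iterate_succ_apply']
    exact preK_le_ker h ih

/-- membership in iterated preimages through sections -/
theorem mem_preK_iter {ψ : A →* Wr A X} {φ : A →* PA X} (h : Compat ψ φ) {N : Subgroup A}
    (n : ℕ) (u : A) (hu : φ u = 1) (hv : ∀ v : List X, v.length = n → secU ψ u v ∈ N) :
    u ∈ (preK ψ)^[n] N := by
  induction n generalizing u with
  | zero => exact hv [] rfl
  | succ n ih =>
    rw [Function.iterate_succ_apply']
    refine ⟨by rw [← h.root, hu]; rfl, fun x => ih _ ?_ ?_⟩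
    · rw [← h.sec, hu]; rfl
    · intro v hl
      exact hv (x :: v) (by simp [hl])

/-- a standard decomposition kills only elements of iterated preimages -/
theorem mem_of_st_eq_one (ψ : A →* Wr A X) (α : A →* Z) {N : Subgroup A}
    (hN : ∀ u, α u = 1 → u ∈ N) (s : ℕ) (u : A) (hu : st ψ α s u = 1) :
    u ∈ (preK ψ)^[s] N := by
  induction s generalizing u with
  | zero => exact hN u hu
  | succ s ih =>
    rw [Function.iterate_succ_apply']
    have h1 : Wr.map (st ψ α s) (ψ u) = 1 := hu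
    refine ⟨congrArg Wr.perm h1, fun x => ih _ ?_⟩
    exact congrFun (congrArg Wr.sec h1) x

/-- a standard decomposition kills invariant subgroups killed by its components -/
theorem st_kills (ψ : A →* Wr A X) (α : A →* Z) {N : Subgroup A} (hN : N ≤ preK ψ N)
    (hα : ∀ u ∈ N, α u = 1) (s : ℕ) : ∀ u ∈ N, st ψ α s u = 1 := by
  induction s with
  | zero => exact hα
  | succ s ih =>
    intro u hu
    obtain ⟨h1, h2⟩ := hN hu
    change Wr.map (st ψ α s) (ψ u) = 1
    apply Wr.ext
    · exact h1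
    · funext x
      exact ih _ (h2 x)

/-- factorisation -/
theorem exists_factor {B D : Type} [Group B] [Group D] (f : A →* B) (hf : Function.Surjective f)
    (g : A →* D) (h : ∀ a, f a = 1 → g a = 1) : ∃ g' : B →* D, g'.comp f = g := by
  refine ⟨(f.liftOfSurjective hf) ⟨g, fun a ha => h a ha⟩, ?_⟩
  exact MonoidHom.liftOfRightInverse_comp _ _ _ ⟨g, fun a ha => h a ha⟩

/-! ### Kernels of `F(f)` -/

/-- elements of `F(A)` killed by `F(f)` for all `f` killing `K` -/
def KF (o : X) (K : Subgroup A) : Subgroup (FF o A) where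
  carrier := {u | ∀ (B : Type) [Group B] (f : A →* B), (∀ k ∈ K, f k = 1) → FF.map o f u = 1}
  mul_mem' := by
    intro a b ha hb B _ f hf
    rw [map_mul, ha B f hf, hb B f hf, one_mul]
  one_mem' := by
    intro B _ f _
    exact map_one _
  inv_mem' := by
    intro a ha B _ f hf
    rw [map_inv, ha B f hf, inv_one]

variable {o : X}

theorem KF_mono {K K' : Subgroup A} (h : K ≤ K') : KF o K ≤ KF o K' :=
  fun _ hu B _ f hf => hu B f fun k hk => hf k (h hk)

theorem KF_map {A' : Type} [Group A'] (g : A →* A') {K : Subgroup A} {K' : Subgroup A'}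
    (h : ∀ k ∈ K, g k ∈ K') {u : FF o A} (hu : u ∈ KF o K) : FF.map o g u ∈ KF o K' := by
  intro B _ f hf
  rw [FF.map_map]
  exact hu B _ fun k hk => hf _ (h k hk)

/-- the key kill lemma -/
theorem ext_kills [DecidableEq X] {W : Type} [Group W] {K : Subgroup A} (hK : K.Normal)
    (κ : FF o A →* W) (h : A →* W) (hκ : ∀ u ∈ KF o K, κ u = 1) (hh : ∀ k ∈ K, h k = 1) :
    ∀ u ∈ KF o K, FF.ext o κ h u = 1 := by
  let f : A →* A ⧸ K := QuotientGroup.mk' K
  have hf : Function.Surjective f := QuotientGroup.mk'_surjective K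
  have hfK : ∀ k ∈ K, f k = 1 := fun k hk => (QuotientGroup.eq_one_iff k).2 hk
  obtain ⟨h', hh'⟩ := exists_factor f hf h fun a ha => hh a ((QuotientGroup.eq_one_iff a).1 ha)
  obtain ⟨κ', hκ'⟩ := exists_factor (FF.map o f) (FF.map_surjective f hf) κ (by
    intro u hu
    apply hκ
    intro B _ g hg
    obtain ⟨g', hg'⟩ := exists_factor f hf g fun a ha => hg a ((QuotientGroup.eq_one_iff a).1 ha)
    rw [← hg', ← FF.map_map, hu, map_one])
  intro u hu
  have h1 := DFunLike.congr_fun (FF.ext_map κ' h' f) u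
  rw [hκ', hh'] at h1
  rw [← h1, MonoidHom.comp_apply, hu _ f hfK, map_one]

variable [DecidableEq X]

namespace Co

variable (c : Co o A)

/-- the relations on the next stage coming from relations `K` -/
def RR (K : Subgroup A) : Subgroup (FF o A) :=
  Subgroup.normalClosure ((c.j '' K) ∪ (KF o K : Set (FF o A)))

instance (K : Subgroup A) : (c.RR K).Normal := Subgroup.normalClosure_normal

theorem j_mem_RR {K : Subgroup A} {a : A} (ha : a ∈ K) : c.j a ∈ c.RR K :=
  Subgroup.subset_normalClosure (Or.inl ⟨a, ha, rfl⟩)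

theorem KF_le_RR (K : Subgroup A) : KF o K ≤ c.RR K :=
  fun _ hu => Subgroup.subset_normalClosure (Or.inr hu)

theorem RR_le {K : Subgroup A} {N : Subgroup (FF o A)} (hN : N.Normal)
    (h1 : ∀ a ∈ K, c.j a ∈ N) (h2 : KF o K ≤ N) : c.RR K ≤ N := by
  apply Subgroup.normalClosure_le_normal
  rintro u (⟨a, ha, rfl⟩ | hu)
  · exact h1 a ha
  · exact h2 hu

theorem RR_mono {K K' : Subgroup A} (h : K ≤ K') : c.RR K ≤ c.RR K' :=
  c.RR_le inferInstance (fun _ ha => c.j_mem_RR (h ha)) ((KF_mono h).trans (c.KF_le_RR K'))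

theorem RR_inv {K : Subgroup A} (hK : K.Normal) (h : K ≤ preK c.ψ K) :
    c.RR K ≤ preK c.next.ψ (c.RR K) := by
  apply c.RR_le (preK_normal _ inferInstance)
  · intro a ha
    obtain ⟨h1, h2⟩ := h ha
    refine ⟨?_, fun x => ?_⟩
    · rw [next_ψ_j]; exact h1
    · rw [next_ψ_j]; exact c.j_mem_RR (h2 x)
  · intro u hu
    let q := QuotientGroup.mk' (c.RR K)
    have hq : ∀ u ∈ c.RR K, q u = 1 := fun u hu => (QuotientGroup.eq_one_iff u).2 hu
    have h1 := ext_kills (o := o) hK q (q.comp c.j) (fun u hu => hq u (c.KF_le_RR K hu))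
      (fun k hk => hq _ (c.j_mem_RR hk)) u hu
    have h2 := DFunLike.congr_fun (FF.map_ext q (MonoidHom.id (FF o A)) c.j) u
    have h3 : Wr.map q (c.next.ψ u) = 1 := h2.trans h1
    refine ⟨congrArg Wr.perm h3, fun x => ?_⟩
    exact (QuotientGroup.eq_one_iff _).1 (congrFun (congrArg Wr.sec h3) x)

theorem RR_le_ker {K : Subgroup A} (h : K ≤ c.φ.ker) : c.RR K ≤ c.next.φ.ker := by
  apply c.RR_le inferInstance
  · intro a ha
    rw [MonoidHom.mem_ker, next_φ_j]
    exact h ha
  · intro u hu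
    have h1 := DFunLike.congr_fun (realF_map (o := o) (MonoidHom.id (PA X)) c.φ) u
    have h2 : FF.map o c.φ u = 1 := hu _ c.φ fun k hk => h hk
    rw [MonoidHom.comp_apply, h2, map_one] at h1
    exact h1.symm

theorem kills_RR {W : Type} [Group W] {K : Subgroup A} (κ : FF o A →* W)
    (h1 : ∀ a ∈ K, κ (c.j a) = 1) (h2 : ∀ u ∈ KF o K, κ u = 1) : ∀ u ∈ c.RR K, κ u = 1 := by
  have : c.RR K ≤ κ.ker := c.RR_le inferInstance h1 h2
  exact this

/-- kernels of the next stage -/
noncomputable def KN (K : ℕ → Subgroup A) (n : ℕ) : Subgroup (FF o A) := (preK c.next.ψ)^[n] (c.RR (K n))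

end Co

end Pool.Agent.helper16.FJ
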