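import Pool.Agent.helper16.FJ.Tower

set_option autoImplicit false

/-!
# The groups of the tower are in the class
-/

namespace Pool.Agent.helper16.FJ

variable {X : Type} [DecidableEq X] {o : X} {Z : Type} [Group Z]

theorem Vf_mono_pre (n l : ℕ) : ∀ (α : (stg o l).A →* Z) (β : FF o (stg o l).A →* Z),
    (∀ a s δ, Vf o Z n l α β (a + 1) s δ → Vf o Z n l α β a s δ) ∧
    (∀ a s δ, Pre1 (stg o l).c.ψ (Vf o Z n l α β a) s δ → Vf o Z n l α β a s δ) := by
  induction l with
  | zero =>
    intro α β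
    refine ⟨fun a s δ h => ?_, ?_⟩
    · change n + a ≤ s
      have : n + (a + 1) ≤ s := h
      omega
    · rintro a _ _ ⟨hδ⟩
      rename_i s δ
      change n + a ≤ s + 1
      have : n + a ≤ s := hδ
      omega
  | succ l ih =>
    intro α β
    obtain ⟨h1, h2⟩ := ih (α.comp (stg o l).c.j) (β.comp (FF.map o (stg o l).c.j))
    exact ⟨Vnext_mono h1 h2, Vnext_pre h2⟩

theorem Kf_j (l n : ℕ) [Finite X] {a : (stg o l).A} (ha : a ∈ Kf o l n) :
    (stg o l).c.j a ∈ Kf o (l + 1) n := by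
  have h := KProp_stg (o := o) l
  exact le_preK_iter _ ((stg o l).c.RR_inv (h.normal n) (h.inv n)) n
    ((stg o l).c.j_mem_RR ha)

theorem Vf_kills [Finite X] (n l : ℕ) : ∀ (α : (stg o l).A →* Z) (β : FF o (stg o l).A →* Z),
    (∀ u ∈ Kf o l n, α u = 1) → (∀ u ∈ KF o (Kf o l n), β u = 1) →
    ∀ a s δ, Vf o Z n l α β a s δ → ∀ u ∈ Kf o l n, δ u = 1 := by
  induction l with
  | zero =>
    intro α β _ _ a s δ _ u _
    exact map_one δ
  | succ l ih =>
    intro α β hα hβ
    have h := KProp_stg (o := o) l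
    have hα' : ∀ u ∈ Kf o l n, α.comp (stg o l).c.j u = 1 := fun u hu => hα _ (Kf_j l n hu)
    have hβ' : ∀ u ∈ KF o (Kf o l n), β.comp (FF.map o (stg o l).c.j) u = 1 :=
      fun u hu => hβ _ (KF_map _ (fun k hk => Kf_j l n hk) hu)
    exact Vnext_kills (h.normal n) (h.inv n) hα' hβ' (ih _ _ hα' hβ')

theorem Vf_coh (n l : ℕ) {Q : Type} [Group Q] (π : Z →* Q) :
    ∀ (α : (stg o l).A →* Z) (β : FF o (stg o l).A →* Z) (q : FF o (stg o l).A →* Q),
    π.comp β = q → π.comp α = q.comp (stg o l).c.j →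
    ∀ a s δ, Vf o Z n l α β a s δ →
      (WI.map π s).comp δ = st (stg o l).c.ψ (q.comp (stg o l).c.j) s := by
  induction l with
  | zero =>
    intro α β q _ _ a s δ _
    exact unit_hom_eq _ _
  | succ l ih =>
    intro α β q hβ hα
    have hβ' : π.comp (β.comp (FF.map o (stg o l).c.j)) = q.comp (stg o (l + 1)).c.j := by
      rw [← hβ]; rfl
    have hα' : π.comp (α.comp (stg o l).c.j) =
        (q.comp (stg o (l + 1)).c.j).comp (stg o l).c.j := by
      rw [← hα]; rfl
    exact Vnext_coh π _ hβ' hα' (ih _ _ _ hβ' hα')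

omit [DecidableEq X] in
/-- depth shifting -/
theorem Pre1.exists {A : Type} [Group A] {ψ : A →* Wr A X} {𝒟 : Cls X A Z} {t : ℕ}
    {κ : A →* WI X Z t} (h : 𝒟 t κ) (m : ℕ) : ∃ δ, (Pre1 ψ)^[m] 𝒟 (t + m) δ := by
  induction m with
  | zero => exact ⟨κ, h⟩
  | succ m ih =>
    obtain ⟨δ, hδ⟩ := ih
    refine ⟨prec ψ δ, ?_⟩
    rw [Function.iterate_succ_apply']
    exact ⟨hδ⟩

theorem Vf_ext (n l : ℕ) : ∀ (α : (stg o l).A →* Z) (β : FF o (stg o l).A →* Z),
    Ext n (stg o l).c α β (Vf o Z n l α β) := by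
  induction l with
  | zero =>
    intro α β a s u hu
    have hu' : n + (2 * a + n) ≤ s := hu
    obtain ⟨t, rfl⟩ : ∃ t, s = t + (n + a) := ⟨s - (n + a), by omega⟩
    have h1 : ∀ t, ∃ κ, Comp β (Plus (stg o 0).c.ψ α (Vf o Z n 0 α β a)) t κ := by
      intro t
      induction t with
      | zero => exact ⟨β, Comp.zero⟩
      | succ t ih =>
        obtain ⟨κ, hκ⟩ := ih
        exact ⟨_, Comp.succ hκ (Or.inr rfl)⟩
    obtain ⟨κ, hκ⟩ := h1 t
    have h2 : DD (stg o 0).c α β (Vf o Z n 0 α β a) t κ := by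
      refine ⟨hκ, ?_⟩
      change n + a ≤ t
      omega
    obtain ⟨δ, hδ⟩ := Pre1.exists (ψ := (stg o 0).c.next.ψ) h2 (n + a)
    exact ⟨δ, hδ, unit_hom_eq _ _⟩
  | succ l ih =>
    intro α β
    obtain ⟨h1, h2⟩ := Vf_mono_pre n l (α.comp (stg o l).c.j) (β.comp (FF.map o (stg o l).c.j))
    exact Ext.step h1 h2 (ih _ _)

theorem Vf_nonempty (n l : ℕ) : ∀ (α : (stg o l).A →* Z) (β : FF o (stg o l).A →* Z) (a : ℕ),
    ∃ s δ, Vf o Z n l α β a s δ := by
  induction l with
  | zero =>
    intro α β a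
    exact ⟨n + a, 1, le_refl (n + a)⟩
  | succ l ih =>
    intro α β a
    obtain ⟨s, u, hu⟩ := ih (α.comp (stg o l).c.j) (β.comp (FF.map o (stg o l).c.j)) (2 * a + n)
    obtain ⟨δ, hδ, _⟩ := Vf_ext n l _ _ a s u hu
    exact ⟨s, δ, hδ⟩

theorem HasDec_stg [Finite X] (l : ℕ) : HasDec (stg o l).c (Kf o l) := by
  intro n Z _ α β hα hβ
  obtain ⟨s, u, hu⟩ := Vf_nonempty n l α β (2 * 0 + n)
  obtain ⟨δ, hδ, _⟩ := Vf_ext n l _ _ 0 s u hu
  have h := KProp_stg (o := o) l
  refine ⟨s, δ, ?_, ?_⟩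
  · exact Vnext_kills (h.normal n) (h.inv n) hα hβ (Vf_kills n l α β hα hβ) 0 s δ hδ
  · intro Q _ π q h1 h2
    exact Vnext_coh π q h1 h2 (Vf_coh n l π α β q h1 h2) 0 s δ hδ

theorem Star_stg {P : ∀ (G : Type) [Group G], Prop} (hP : Inherit P) [Finite X] (l : ℕ) :
    Star P (Kf o l) := by
  induction l with
  | zero =>
    intro n
    refine ⟨0, Unit, inferInstance, MonoidHom.id _, hP.trivial_group _,
      Function.surjective_id, fun _ _ => rfl, fun u _ => Subgroup.mem_bot.2 rfl⟩
  | succ l ih => exact Star.next hP (KProp_stg l) (HasDec_stg l) ih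

/-- the groups of tree automorphisms of the tower -/
noncomputable def GD (o : X) (l : ℕ) : Subgroup (PA X) := (stg o l).c.φ.range

theorem Inherit.GD {P : ∀ (G : Type) [Group G], Prop} (hP : Inherit P) [Finite X] (o : X)
    (l : ℕ) : P (GD o l) := hP.of_star (KProp_stg l) (Star_stg hP l)

theorem GD_le_succ (o : X) (l : ℕ) : GD o l ≤ GD o (l + 1) := by
  rintro _ ⟨a, rfl⟩
  exact ⟨(stg o l).c.j a, Co.next_φ_j _ a⟩

theorem GD_mono (o : X) {l m : ℕ} (h : l ≤ m) : GD o l ≤ GD o m := by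
  induction h with
  | refl => exact le_rfl
  | step _ ih => exact ih.trans (GD_le_succ o _)

/-- the union of the groups of the tower -/
noncomputable def GU (o : X) : Subgroup (PA X) where
  carrier := {g | ∃ l, g ∈ GD o l}
  mul_mem' := by
    rintro a b ⟨l, hl⟩ ⟨m, hm⟩
    exact ⟨max l m, mul_mem (GD_mono o (le_max_left l m) hl) (GD_mono o (le_max_right l m) hm)⟩
  one_mem' := ⟨0, one_mem _⟩
  inv_mem' := by
    rintro a ⟨l, hl⟩
    exact ⟨l, inv_mem hl⟩

theorem mem_GU {o : X} {g : PA X} : g ∈ GU o ↔ ∃ l, g ∈ GD o l := Iff.rfl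

theorem Inherit.GU {P : ∀ (G : Type) [Group G], Prop} (hP : Inherit P) [Finite X] (o : X) :
    P (GU o) :=
  hP.of_directed_union (fun l => FJ.GD o l)
    (fun i j => ⟨max i j, GD_mono o (le_max_left i j), GD_mono o (le_max_right i j)⟩) _
    (fun _ hg => hg) (fun l => hP.GD o l)

theorem mem_GD_glue {o : X} {l : ℕ} {g : PA X} (h : ∀ x, g.sec x ∈ GD o l) :
    g ∈ GD o (l + 1) := by
  choose f hf using h
  refine ⟨FF.inW o _ ⟨g [], f⟩, ?_⟩
  change realF o (stg o l).c.φ _ = g
  rw [realF_inW]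
  apply PA.toWr_injective
  apply Wr.ext
  · rfl
  · funext x
    exact hf x

theorem mem_GD_dir [Finite X] {o : X} {l : ℕ} {ξ η : ℕ → X} {g : PA X} (hg : DirF (GD o l) ξ η g) :
    g ∈ GD o (l + 1) := by
  classical
  obtain ⟨b, hb, h⟩ := hg.decomp o
  have htray : ∀ ξ, tray o ξ ∈ GD o (l + 1) := fun ξ => ⟨FF.tt o _ ξ, realF_tt _ ξ⟩
  have hbm : b ∈ GD o (l + 1) := by
    obtain ⟨T, hT, hTG, hd⟩ := (hb : DirF (GD o l) (fun _ => o) (fun _ => o) b)
    -- preimages
    have h1 : ∀ t : PA X, t ∈ GD o l → ∃ a, (stg o l).c.φ a = t := fun t ht => ht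
    choose! r hr using h1
    let G : PA X → Wr (stg o l).A X := fun p => ⟨p [], fun x => if x = o then 1 else r (p.sec x)⟩
    -- the sequence
    let sq : ℕ → PA X := fun n => (fun p => PA.sec p o)^[n] b
    have hsq : ∀ n, Dir T (fun _ => o) (fun _ => o) (sq n) := by
      intro n
      induction n with
      | zero => exact hd
      | succ n ih =>
        change Dir T _ _ ((fun p => PA.sec p o)^[n + 1] b)
        rw [Function.iterate_succ_apply']
        exact (dir_iff.1 ih).2.2
    have hfin : (Set.range fun n => G (sq n)).Finite := by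
      have hTf : (insert (1 : (stg o l).A) (r '' T)).Finite := (hT.image r).insert 1
      have : Finite (insert (1 : (stg o l).A) (r '' T) : Set (stg o l).A) := hTf.to_subtype
      let F : Equiv.Perm X × (X → (insert (1 : (stg o l).A) (r '' T) : Set (stg o l).A)) →
          Wr (stg o l).A X := fun p => ⟨p.1, fun x => (p.2 x).1⟩
      refine (Set.finite_range F).subset ?_
      rintro _ ⟨n, rfl⟩
      have h2 : ∀ x, (G (sq n)).sec x ∈ insert (1 : (stg o l).A) (r '' T) := by
        intro x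
        change (if x = o then 1 else r ((sq n).sec x)) ∈ _
        by_cases hx : x = o
        · rw [if_pos hx]
          exact Set.mem_insert _ _
        · rw [if_neg hx]
          exact Set.mem_insert_of_mem _ ⟨_, (dir_iff.1 (hsq n)).2.1 x hx, rfl⟩
      exact ⟨((G (sq n)).perm, fun x => ⟨_, h2 x⟩), rfl⟩
    let b' : VS o (stg o l).A := ⟨fun n => G (sq n), hfin, fun n =>
      ⟨(dir_iff.1 (hsq n)).1, if_pos rfl⟩⟩
    refine ⟨FF.inV o _ b', ?_⟩
    change realF o (stg o l).c.φ _ = b
    rw [realF_inV]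
    have key : ∀ v n, realV o (stg o l).c.φ (fun k => G (sq (n + k))) v = (sq n) v := by
      intro v
      induction v with
      | nil => intro n; rfl
      | cons x v ih =>
        intro n
        by_cases hx : x = o
        · subst hx
          have e1 : realV x (stg x l).c.φ (fun k => G (sq (n + k))) (x :: v) =
            realV x (stg x l).c.φ (fun k => G (sq (n + (k + 1)))) v := if_pos rfl
          have e2 : sq (n + 1) = (sq n).sec x := Function.iterate_succ_apply' _ n b
          rw [e1]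
          have e3 := ih (n + 1)
          rw [e2] at e3
          rw [← show (sq n).sec x v = sq n (x :: v) from rfl, ← e3]
          congr 1
          funext k
          congr 2
          omega
        · have e1 : realV o (stg o l).c.φ (fun k => G (sq (n + k))) (x :: v) =
            (stg o l).c.φ ((G (sq n)).sec x) v := if_neg hx
          have e2 : (G (sq n)).sec x = r ((sq n).sec x) := if_neg hx
          have e3 : (sq n).sec x ∈ GD o l := hTG ((dir_iff.1 (hsq n)).2.1 x hx)
          rw [e1, e2, hr _ e3]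
          rfl
    have key0 := fun v => key v 0
    apply PA.ext'
    intro v
    rw [← show sq 0 = b from rfl, ← key0 v]
    congr 1
    funext k
    change G (sq k) = G (sq (0 + k))
    rw [Nat.zero_add]
  rw [h]
  exact mul_mem (mul_mem (htray η) hbm) (inv_mem (htray ξ))

end Pool.Agent.helper16.FJ
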