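import Pool.Agent.helper16.FJ.Tree

set_option autoImplicit false

/-!
# Rays, directed automorphisms
-/

namespace Pool.Agent.helper16.FJ

open scoped Pointwise

variable {X : Type}

/-- shift of a ray -/
def shift (ξ : ℕ → X) : ℕ → X := fun n => ξ (n + 1)

/-- initial segment of a ray -/
def pre (ξ : ℕ → X) : ℕ → List X
  | 0 => []
  | n + 1 => ξ 0 :: pre (shift ξ) n

@[simp] theorem length_pre (ξ : ℕ → X) (n : ℕ) : (pre ξ n).length = n := by
  induction n generalizing ξ with
  | zero => rfl
  | succ n ih => simp [pre, ih]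

theorem pre_ne {ξ η : ℕ → X} (h : ξ ≠ η) : ∃ n, pre ξ n ≠ pre η n := by
  by_contra hc
  push Not at hc
  apply h
  funext n
  induction n generalizing ξ η with
  | zero =>
    have := hc 1
    simpa [pre] using this
  | succ n ih =>
    have h1 : ∀ m, pre (shift ξ) m = pre (shift η) m := by
      intro m
      have := hc (m + 1)
      simp only [pre, List.cons.injEq] at this
      exact this.2
    have hne : shift ξ ≠ shift η := by
      intro he
      apply h
      funext k
      cases k with
      | zero =>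
        have := hc 1
        simpa [pre] using this
      | succ k => exact congrFun he k
    exact ih hne h1

theorem shift_const (o : X) : shift (fun _ : ℕ => o) = fun _ => o := rfl

/-- `g` maps the ray `ξ` to the ray `η` and its sections at depth up to `n` off the ray are
in `T` -/
def DirN (T : Set (PA X)) : ℕ → (ℕ → X) → (ℕ → X) → PA X → Prop
  | 0, _, _, _ => True
  | n + 1, ξ, η, g => g [] (ξ 0) = η 0 ∧ (∀ x, x ≠ ξ 0 → g.sec x ∈ T) ∧
      DirN T n (shift ξ) (shift η) (g.sec (ξ 0))

/-- `g` maps the ray `ξ` to the ray `η` and its sections off the ray are in `T` -/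
def Dir (T : Set (PA X)) (ξ η : ℕ → X) (g : PA X) : Prop := ∀ n, DirN T n ξ η g

theorem dir_iff {T : Set (PA X)} {ξ η : ℕ → X} {g : PA X} :
    Dir T ξ η g ↔ g [] (ξ 0) = η 0 ∧ (∀ x, x ≠ ξ 0 → g.sec x ∈ T) ∧
      Dir T (shift ξ) (shift η) (g.sec (ξ 0)) := by
  constructor
  · intro h
    exact ⟨(h 1).1, (h 1).2.1, fun n => (h (n + 1)).2.2⟩
  · rintro ⟨h1, h2, h3⟩ n
    cases n with
    | zero => trivial
    | succ n => exact ⟨h1, h2, h3 n⟩

theorem Dir.mono {T T' : Set (PA X)} (hT : T ⊆ T') {ξ η : ℕ → X} {g : PA X}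
    (h : Dir T ξ η g) : Dir T' ξ η g := by
  intro n
  induction n generalizing ξ η g with
  | zero => trivial
  | succ n ih =>
    obtain ⟨h1, h2, h3⟩ := dir_iff.1 h
    exact ⟨h1, fun x hx => hT (h2 x hx), ih h3⟩

theorem Dir.mul {T T' : Set (PA X)} {ξ η ζ : ℕ → X} {g h : PA X}
    (hg : Dir T ξ η g) (hh : Dir T' η ζ h) : Dir (T' * T) ξ ζ (h * g) := by
  intro n
  induction n generalizing ξ η ζ g h with
  | zero => trivial
  | succ n ih =>
    obtain ⟨h1, h2, h3⟩ := dir_iff.1 hg
    obtain ⟨k1, k2, k3⟩ := dir_iff.1 hh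
    refine ⟨?_, ?_, ?_⟩
    · rw [PA.root_mul, Equiv.Perm.mul_apply, h1, k1]
    · intro x hx
      rw [PA.sec_mul]
      refine Set.mul_mem_mul (k2 _ ?_) (h2 x hx)
      intro hc
      apply hx
      apply (g []).injective
      rw [hc, h1]
    · rw [PA.sec_mul, h1]
      exact ih h3 k3

theorem Dir.inv {T : Set (PA X)} {ξ η : ℕ → X} {g : PA X}
    (hg : Dir T ξ η g) : Dir T⁻¹ η ξ g⁻¹ := by
  intro n
  induction n generalizing ξ η g with
  | zero => trivial
  | succ n ih =>
    obtain ⟨h1, h2, h3⟩ := dir_iff.1 hg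
    have h0 : (g [])⁻¹ (η 0) = ξ 0 := by rw [← h1, perm_inv_apply]
    refine ⟨?_, ?_, ?_⟩
    · rw [PA.root_inv, h0]
    · intro x hx
      rw [PA.sec_inv, Set.mem_inv, inv_inv]
      apply h2
      intro hc
      apply hx
      rw [← h1, ← hc, perm_apply_inv]
    · rw [PA.sec_inv, h0]
      exact ih h3

theorem Dir.one (T : Set (PA X)) (hT : (1 : PA X) ∈ T) (ξ : ℕ → X) : Dir T ξ ξ 1 := by
  intro n
  induction n generalizing ξ with
  | zero => trivial
  | succ n ih => exact ⟨rfl, fun x _ => hT, ih _⟩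

/-- directed, with finitely many sections off the ray, all of them in `G` -/
def DirF (G : Subgroup (PA X)) (ξ η : ℕ → X) (g : PA X) : Prop :=
  ∃ T : Set (PA X), T.Finite ∧ T ⊆ (G : Set (PA X)) ∧ Dir T ξ η g

theorem DirF.mul {G : Subgroup (PA X)} {ξ η ζ : ℕ → X} {g h : PA X}
    (hh : DirF G η ζ h) (hg : DirF G ξ η g) : DirF G ξ ζ (h * g) := by
  obtain ⟨T, hT, hTG, hg⟩ := hg
  obtain ⟨T', hT', hTG', hh⟩ := hh
  refine ⟨T' * T, hT'.mul hT, ?_, hg.mul hh⟩
  rintro _ ⟨a, ha, b, hb, rfl⟩
  exact mul_mem (hTG' ha) (hTG hb)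

theorem DirF.inv {G : Subgroup (PA X)} {ξ η : ℕ → X} {g : PA X}
    (hg : DirF G ξ η g) : DirF G η ξ g⁻¹ := by
  obtain ⟨T, hT, hTG, hg⟩ := hg
  refine ⟨T⁻¹, hT.inv, ?_, hg.inv⟩
  intro a ha
  have := hTG (Set.mem_inv.1 ha)
  simpa using this

theorem DirF.one (G : Subgroup (PA X)) (ξ : ℕ → X) : DirF G ξ ξ 1 :=
  ⟨{1}, Set.finite_singleton 1, by simp [one_mem], Dir.one _ (by simp) ξ⟩

theorem DirF.mono {G H : Subgroup (PA X)} (h : G ≤ H) {ξ η : ℕ → X} {g : PA X}
    (hg : DirF G ξ η g) : DirF H ξ η g := by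
  obtain ⟨T, hT, hTG, hg⟩ := hg
  exact ⟨T, hT, hTG.trans h, hg⟩

theorem DirF.root {G : Subgroup (PA X)} {ξ η : ℕ → X} {g : PA X} (hg : DirF G ξ η g) :
    g [] (ξ 0) = η 0 := by
  obtain ⟨T, _, _, hg⟩ := hg
  exact (dir_iff.1 hg).1

theorem DirF.off {G : Subgroup (PA X)} {ξ η : ℕ → X} {g : PA X} (hg : DirF G ξ η g)
    {x : X} (hx : x ≠ ξ 0) : g.sec x ∈ G := by
  obtain ⟨T, _, hTG, hg⟩ := hg
  exact hTG ((dir_iff.1 hg).2.1 x hx)

theorem DirF.on {G : Subgroup (PA X)} {ξ η : ℕ → X} {g : PA X} (hg : DirF G ξ η g) :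
    DirF G (shift ξ) (shift η) (g.sec (ξ 0)) := by
  obtain ⟨T, hT, hTG, hg⟩ := hg
  exact ⟨T, hT, hTG, (dir_iff.1 hg).2.2⟩

theorem DirF.cons {G : Subgroup (PA X)} [Finite X] {ξ η : ℕ → X} {g : PA X}
    (h1 : g [] (ξ 0) = η 0) (h2 : ∀ x, x ≠ ξ 0 → g.sec x ∈ G)
    (h3 : DirF G (shift ξ) (shift η) (g.sec (ξ 0))) : DirF G ξ η g := by
  obtain ⟨T, hT, hTG, hg⟩ := h3
  refine ⟨T ∪ (g.sec '' {x | x ≠ ξ 0}), hT.union ((Set.toFinite _).image _), ?_, ?_⟩
  · intro a ha
    rcases ha with ha | ⟨x, hx, rfl⟩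
    · exact hTG ha
    · exact h2 x hx
  · rw [dir_iff]
    exact ⟨h1, fun x hx => Or.inr ⟨x, hx, rfl⟩, hg.mono Set.subset_union_left⟩

theorem DirF.act_pre {G : Subgroup (PA X)} {ξ η : ℕ → X} {g : PA X} (hg : DirF G ξ η g)
    (n : ℕ) : g.act (pre ξ n) = pre η n := by
  induction n generalizing ξ η g with
  | zero => rfl
  | succ n ih =>
    simp only [pre, PA.act_cons, hg.root, ih hg.on]

/-- A directed element that acts trivially maps its ray to itself. -/
theorem DirF.eq_of_one {G : Subgroup (PA X)} {ξ η : ℕ → X} (hg : DirF G ξ η 1) : ξ = η := by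
  by_contra h
  obtain ⟨n, hn⟩ := pre_ne h
  apply hn
  have := hg.act_pre n
  simpa using this

/-! ### The standard directed elements -/

variable [DecidableEq X]

/-- the automorphism mapping the ray `o^∞` to `ξ` -/
def tray (o : X) (ξ : ℕ → X) : PA X
  | [] => Equiv.swap o (ξ 0)
  | x :: v => if x = o then tray o (shift ξ) v else 1

theorem tray_root (o : X) (ξ : ℕ → X) : (tray o ξ) [] = Equiv.swap o (ξ 0) := rfl

theorem tray_sec_on (o : X) (ξ : ℕ → X) : (tray o ξ).sec o = tray o (shift ξ) := by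
  apply PA.ext'
  intro v
  simp [PA.sec, tray]

theorem tray_sec_off (o : X) (ξ : ℕ → X) {x : X} (hx : x ≠ o) : (tray o ξ).sec x = 1 := by
  apply PA.ext'
  intro v
  simp [PA.sec, tray, hx]

theorem tray_const (o : X) : tray o (fun _ => o) = 1 := by
  apply PA.ext'
  intro v
  induction v with
  | nil => simp only [tray, Equiv.swap_self]; rfl
  | cons x v ih =>
    by_cases hx : x = o
    · simp only [tray, hx, if_true]
      exact ih
    · simp [tray, hx]

theorem tray_dir (o : X) (ξ : ℕ → X) (T : Set (PA X)) (hT : (1 : PA X) ∈ T) :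
    Dir T (fun _ => o) ξ (tray o ξ) := by
  intro n
  induction n generalizing ξ with
  | zero => trivial
  | succ n ih =>
    refine ⟨by simp [tray], ?_, ?_⟩
    · intro x hx
      rw [tray_sec_off o ξ hx]
      exact hT
    · rw [tray_sec_on]
      exact ih _

theorem tray_dirF (o : X) (ξ : ℕ → X) (G : Subgroup (PA X)) :
    DirF G (fun _ => o) ξ (tray o ξ) :=
  ⟨{1}, Set.finite_singleton 1, by simp [one_mem], tray_dir o ξ _ (by simp)⟩

/-! ### Vertex groups -/

omit [DecidableEq X] in
/-- the group of the elements fixing the ray `o^∞` with finitely many sections off the ray, all of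
them in `G` -/
def VG (o : X) (G : Subgroup (PA X)) : Subgroup (PA X) where
  carrier := {g | DirF G (fun _ => o) (fun _ => o) g}
  mul_mem' := fun ha hb => DirF.mul ha hb
  one_mem' := DirF.one G _
  inv_mem' := fun ha => DirF.inv ha

omit [DecidableEq X] in
theorem mem_VG {o : X} {G : Subgroup (PA X)} {g : PA X} :
    g ∈ VG o G ↔ DirF G (fun _ => o) (fun _ => o) g := Iff.rfl

omit [DecidableEq X] in
theorem VG_root {o : X} {G : Subgroup (PA X)} {g : PA X} (h : g ∈ VG o G) : g [] o = o :=
  DirF.root (mem_VG.1 h)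

omit [DecidableEq X] in
theorem VG_sec_on {o : X} {G : Subgroup (PA X)} {g : PA X} (h : g ∈ VG o G) :
    g.sec o ∈ VG o G := DirF.on (mem_VG.1 h)

omit [DecidableEq X] in
theorem VG_sec_off {o : X} {G : Subgroup (PA X)} {g : PA X} (h : g ∈ VG o G) {x : X}
    (hx : x ≠ o) : g.sec x ∈ G := DirF.off (mem_VG.1 h) hx

omit [DecidableEq X] in
theorem VG_mono {o : X} {G H : Subgroup (PA X)} (h : G ≤ H) : VG o G ≤ VG o H :=
  fun _ hg => DirF.mono h hg

omit [DecidableEq X] in
theorem VG_ne {o : X} {G : Subgroup (PA X)} {g : PA X} (h : g ∈ VG o G) {x : X}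
    (hx : x ≠ o) : g [] x ≠ o := by
  intro hc
  apply hx
  apply (g []).injective
  rw [hc, VG_root h]

/-- Every directed element is conjugate into the vertex group by the standard elements. -/
theorem DirF.decomp (o : X) {G : Subgroup (PA X)} {ξ η : ℕ → X} {g : PA X} (hg : DirF G ξ η g) :
    ∃ b ∈ VG o G, g = tray o η * b * (tray o ξ)⁻¹ := by
  refine ⟨(tray o η)⁻¹ * g * tray o ξ, ?_, by group⟩
  exact DirF.mul (DirF.mul (tray_dirF o η G).inv hg) (tray_dirF o ξ G)

/-- the shift on the vertex group -/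
def VGshift (o : X) (G : Subgroup (PA X)) : VG o G →* VG o G where
  toFun g := ⟨g.1.sec o, VG_sec_on g.2⟩
  map_one' := rfl
  map_mul' a b := by
    apply Subtype.ext
    change (a.1 * b.1).sec o = _
    rw [PA.sec_mul, VG_root b.2]
    rfl

/-- the first coordinate of a vertex group element -/
def VGfirst (o : X) (G : Subgroup (PA X)) : VG o G →* Wr G X where
  toFun g := ⟨g.1 [], fun x => if h : x = o then 1 else ⟨g.1.sec x, VG_sec_off g.2 h⟩⟩
  map_one' := by
    ext x
    · rfl
    · by_cases h : x = o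
      · simp [h]
      · simp [h]
  map_mul' a b := by
    ext x
    · rfl
    · by_cases h : x = o
      · subst h
        simp [VG_root b.2]
      · have h' : b.1 [] x ≠ o := VG_ne b.2 h
        simp only [Subgroup.coe_mul, Wr.mul_sec, h, h', dite_false]
        simp only [PA.sec_mul]

/-- all coordinates -/
def VGseq (o : X) (G : Subgroup (PA X)) : VG o G →* (ℕ → Wr G X) where
  toFun g := fun n => VGfirst o G ((VGshift o G)^[n] g)
  map_one' := by
    funext n
    have : (VGshift o G)^[n] 1 = 1 := by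
      induction n with
      | zero => rfl
      | succ n ih => rw [Function.iterate_succ_apply', ih, map_one]
    rw [this, map_one]
    rfl
  map_mul' a b := by
    funext n
    have : (VGshift o G)^[n] (a * b) = (VGshift o G)^[n] a * (VGshift o G)^[n] b := by
      induction n with
      | zero => rfl
      | succ n ih => rw [Function.iterate_succ_apply', ih, map_mul,
          Function.iterate_succ_apply', Function.iterate_succ_apply']
    rw [this, map_mul]
    rfl

theorem VGseq_injective (o : X) (G : Subgroup (PA X)) : Function.Injective (VGseq o G) := by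
  rw [injective_iff_map_eq_one]
  intro g hg
  apply Subtype.ext
  apply PA.ext'
  intro v
  change g.1 v = 1
  induction v generalizing g with
  | nil =>
    have := congrFun hg 0
    exact congrArg Wr.perm this
  | cons x v ih =>
    by_cases hx : x = o
    · subst hx
      refine ih (VGshift x G g) ?_
      funext n
      have := congrFun hg (n + 1)
      exact this
    · have h0 := congrFun hg 0
      have h1 := congrFun (congrArg Wr.sec h0) x
      have h2 : (if h : x = o then (1 : G) else ⟨g.1.sec x, VG_sec_off g.2 h⟩) = 1 := h1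
      rw [dif_neg hx] at h2
      have h3 := congrArg Subtype.val h2
      exact congrFun h3 v

theorem VGseq_range_finite [Finite X] (o : X) (G : Subgroup (PA X)) (g : VG o G) :
    (Set.range (VGseq o G g)).Finite := by
  obtain ⟨T, hT, hTG, hg⟩ := g.2
  -- all shifts are directed with the same `T`
  have h1 : ∀ n, Dir T (fun _ => o) (fun _ => o) ((VGshift o G)^[n] g).1 := by
    intro n
    induction n with
    | zero => exact hg
    | succ n ih =>
      rw [Function.iterate_succ_apply']
      exact (dir_iff.1 ih).2.2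
  let S : Set (Wr G X) := {w | ∀ x, (w.sec x).1 ∈ insert 1 T}
  have hS : S.Finite := by
    have hfin : Finite (insert (1 : PA X) T : Set (PA X)) := (hT.insert 1).to_subtype
    let f : S → Equiv.Perm X × (X → (insert (1 : PA X) T : Set (PA X))) :=
      fun w => (w.1.perm, fun x => ⟨(w.1.sec x).1, w.2 x⟩)
    have : Finite S := Finite.of_injective f (by
      intro a b hab
      simp only [f, Prod.mk.injEq] at hab
      apply Subtype.ext
      apply Wr.ext
      · exact hab.1
      · funext x
        have := congrFun hab.2 x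
        simp only [Subtype.mk.injEq] at this
        exact Subtype.ext this)
    exact Set.toFinite S
  refine hS.subset ?_
  rintro _ ⟨n, rfl⟩
  intro x
  change ((if h : x = o then (1 : G) else
    ⟨((VGshift o G)^[n] g).1.sec x, VG_sec_off ((VGshift o G)^[n] g).2 h⟩ : G) : PA X) ∈ _
  by_cases hx : x = o
  · simp [hx]
  · rw [dif_neg hx]
    exact Or.inr ((dir_iff.1 (h1 n)).2.1 x hx)

theorem Inherit.VG {P : ∀ (G : Type) [Group G], Prop} (hP : Inherit P) [Finite X] (o : X)
    {G : Subgroup (PA X)} (hG : P G) : P (VG o G) := by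
  have h := hP.finite_range_seq (hP.wr hG X) (VGseq o G).range (by
    rintro _ ⟨g, rfl⟩
    exact VGseq_range_finite o G g)
  exact hP.of_injective (VGseq o G).rangeRestrict
    (fun a b hab => VGseq_injective o G (congrArg Subtype.val hab)) h

end Pool.Agent.helper16.FJ
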