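import Pool.Agent.helper16.FJ.Functor

set_option autoImplicit false

/-!
# Realisation by tree automorphisms, contraction
-/

namespace Pool.Agent.helper16.FJ

variable {X : Type} [DecidableEq X] {A : Type} [Group A]

/-- realisation of vertex sequences -/
def realV (o : X) (φ : A →* PA X) : (ℕ → Wr A X) → PA X
  | b, [] => (b 0).perm
  | b, x :: v => if x = o then realV o φ (fun n => b (n + 1)) v else φ ((b 0).sec x) v

theorem realV_root (o : X) (φ : A →* PA X) (b : ℕ → Wr A X) :
    (realV o φ b) [] = (b 0).perm := rfl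

theorem realV_on (o : X) (φ : A →* PA X) (b : ℕ → Wr A X) :
    (realV o φ b).sec o = realV o φ (fun n => b (n + 1)) := by
  apply PA.ext'
  intro v
  simp [PA.sec, realV]

theorem realV_off (o : X) (φ : A →* PA X) (b : ℕ → Wr A X) {x : X} (hx : x ≠ o) :
    (realV o φ b).sec x = φ ((b 0).sec x) := by
  apply PA.ext'
  intro v
  simp [PA.sec, realV, hx]

/-- realisation of the group of vertex sequences -/
def realVS (o : X) (φ : A →* PA X) : VS o A →* PA X where
  toFun b := realV o φ b.1
  map_one' := by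
    apply PA.ext'
    intro v
    induction v with
    | nil => rfl
    | cons x v ih =>
      change (if x = o then realV o φ (fun n => (1 : VS o A).1 (n + 1)) v else
        φ (((1 : VS o A).1 0).sec x) v) = 1
      by_cases hx : x = o
      · rw [if_pos hx]
        exact ih
      · rw [if_neg hx]
        change φ 1 v = 1
        rw [map_one]
        rfl
  map_mul' b c := by
    apply PA.ext'
    intro v
    induction v generalizing b c with
    | nil => rfl
    | cons x v ih =>
      rw [PA.mul_apply, PA.act_cons, realV_root]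
      change (if x = o then realV o φ (VS.shift o A (b * c)).1 v else
        φ (((b * c).1 0).sec x) v) =
        (if (c.1 0).perm x = o then realV o φ (VS.shift o A b).1 (((realV o φ c.1).sec x).act v) else
          φ ((b.1 0).sec ((c.1 0).perm x)) (((realV o φ c.1).sec x).act v)) *
        (if x = o then realV o φ (VS.shift o A c).1 v else φ ((c.1 0).sec x) v)
      by_cases hx : x = o
      · subst hx
        rw [if_pos rfl, VS.perm_o c, if_pos rfl, if_pos rfl, map_mul, ih, PA.mul_apply, realV_on]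
        rfl
      · rw [if_neg hx, if_neg (VS.perm_ne c 0 hx), if_neg hx, realV_off o φ _ hx, ← PA.mul_apply,
          ← map_mul]
        rfl

/-- realisation of `F(A)` -/
noncomputable def realF (o : X) (φ : A →* PA X) : FF o A →* PA X :=
  FF.lift o
    { toFun := fun a => PA.mk a.perm (fun x => φ (a.sec x))
      map_one' := by
        apply PA.toWr_injective
        apply Wr.ext
        · rfl
        · funext x
          exact map_one φ
      map_mul' := fun a b => by
        apply PA.toWr_injective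
        apply Wr.ext
        · rfl
        · funext x
          exact map_mul φ _ _ }
    (realVS o φ) (tray o)

variable {o : X}

@[simp] theorem realF_inW (φ : A →* PA X) (a : Wr A X) :
    realF o φ (FF.inW o A a) = PA.mk a.perm (fun x => φ (a.sec x)) := by simp [realF]
@[simp] theorem realF_inV (φ : A →* PA X) (b : VS o A) :
    realF o φ (FF.inV o A b) = realV o φ b.1 := by
  simp only [realF, FF.lift_inV]; rfl
@[simp] theorem realF_tt (φ : A →* PA X) (ξ : ℕ → X) :
    realF o φ (FF.tt o A ξ) = tray o ξ := FF.lift_tt _ _ _ (tray_const o) ξ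

theorem toWr_realF (φ : A →* PA X) :
    (PA.toWr).comp (realF o φ) = FF.ext o (realF o φ) φ := by
  apply FF.hom_ext
  · intro a
    simp only [MonoidHom.comp_apply, FF.ext_inW, realF_inW]
    rfl
  · intro b
    simp only [MonoidHom.comp_apply, FF.ext_inV, realF_inV]
    apply Wr.ext
    · rfl
    · funext x
      simp only [FF.extV, MonoidHom.coe_mk, OneHom.coe_mk, realF_inV, PA.toWr_sec]
      by_cases hx : x = o
      · subst hx
        rw [if_pos rfl, realV_on]
        rfl
      · rw [if_neg hx, realV_off _ _ _ hx]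
  · intro ξ
    simp only [MonoidHom.comp_apply, FF.ext_tt, realF_tt]
    apply Wr.ext
    · rfl
    · funext x
      simp only [PA.toWr_sec]
      by_cases hx : x = o
      · subst hx
        rw [if_pos rfl, tray_sec_on]
      · rw [if_neg hx, tray_sec_off _ _ hx]

theorem realV_map {B : Type} [Group B] (φ : B →* PA X) (f : A →* B) (b : VS o A) :
    realV o φ (VS.map o f b).1 = realV o (φ.comp f) b.1 := by
  apply PA.ext'
  intro v
  induction v generalizing b with
  | nil => rfl
  | cons x v ih =>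
    change (if x = o then realV o φ (VS.map o f (VS.shift o A b)).1 v else _) =
      (if x = o then realV o (φ.comp f) (VS.shift o A b).1 v else _)
    by_cases hx : x = o
    · rw [if_pos hx, if_pos hx]
      exact ih _
    · rw [if_neg hx, if_neg hx]
      rfl

theorem realF_map {B : Type} [Group B] (φ : B →* PA X) (f : A →* B) :
    (realF o φ).comp (FF.map o f) = realF o (φ.comp f) := by
  apply FF.hom_ext
  · intro a
    simp only [MonoidHom.comp_apply, FF.map_inW, realF_inW]
    rfl
  · intro b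
    simp only [MonoidHom.comp_apply, FF.map_inV, realF_inV]
    exact realV_map φ f b
  · intro ξ
    simp only [MonoidHom.comp_apply, FF.map_tt, realF_tt]

/-- A stage: a group with a wreath recursion, a realisation and a map to `F` of itself. -/
structure Co (o : X) (A : Type) [Group A] where
  /-- recursion -/
  ψ : A →* Wr A X
  /-- realisation -/
  φ : A →* PA X
  /-- map to the next stage -/
  j : A →* FF o A
  hφ : (realF o φ).comp j = φ
  hψ : (FF.ext o (MonoidHom.id _) j).comp j = (Wr.map j).comp ψ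
  compat : Compat ψ φ

namespace Co

/-- the next stage -/
noncomputable def next (c : Co o A) : Co o (FF o A) where
  ψ := FF.ext o (MonoidHom.id _) c.j
  φ := realF o c.φ
  j := FF.map o c.j
  hφ := by rw [realF_map, c.hφ]
  hψ := by
    rw [FF.ext_map, FF.map_ext]
    rfl
  compat := by
    intro u
    have h1 := DFunLike.congr_fun (toWr_realF (o := o) c.φ) u
    have h2 := DFunLike.congr_fun
      (FF.map_ext (realF o c.φ) (MonoidHom.id (FF o A)) c.j) u
    rw [c.hφ] at h2
    exact h1.trans h2.symm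

theorem next_ψ (c : Co o A) : c.next.ψ = FF.ext o (MonoidHom.id _) c.j := rfl
theorem next_φ (c : Co o A) : c.next.φ = realF o c.φ := rfl
theorem next_j (c : Co o A) : c.next.j = FF.map o c.j := rfl

theorem next_ψ_j (c : Co o A) (a : A) : c.next.ψ (c.j a) = Wr.map c.j (c.ψ a) :=
  DFunLike.congr_fun c.hψ a

theorem next_φ_j (c : Co o A) (a : A) : c.next.φ (c.j a) = c.φ a :=
  DFunLike.congr_fun c.hφ a

theorem next_ψ_inW (c : Co o A) (a : Wr A X) :
    c.next.ψ (FF.inW o A a) = Wr.map c.j a := FF.ext_inW _ _ _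

theorem next_ψ_inV_on (c : Co o A) (b : VS o A) :
    (c.next.ψ (FF.inV o A b)).sec o = FF.inV o A (VS.shift o A b) := by
  rw [next_ψ, FF.ext_inV]
  simp [FF.extV]

theorem next_ψ_inV_off (c : Co o A) (b : VS o A) {x : X} (hx : x ≠ o) :
    (c.next.ψ (FF.inV o A b)).sec x = c.j ((b.1 0).sec x) := by
  rw [next_ψ, FF.ext_inV]
  simp [FF.extV, hx]

theorem next_ψ_inV_perm (c : Co o A) (b : VS o A) :
    (c.next.ψ (FF.inV o A b)).perm = (b.1 0).perm := by
  rw [next_ψ, FF.ext_inV]
  rfl

theorem next_ψ_tt (c : Co o A) (ξ : ℕ → X) : c.next.ψ (FF.tt o A ξ) =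
    ⟨Equiv.swap o (ξ 0), fun x => if x = o then FF.tt o A (shift ξ) else 1⟩ :=
  FF.ext_tt _ _ _

/-! ### directed letters -/

end Co

namespace FF

omit [DecidableEq X] in
/-- directed letters -/
noncomputable def dl (o : X) (A : Type) [Group A] (η : ℕ → X) (b : VS o A) (ξ : ℕ → X) :
    FF o A :=
  tt o A η * inV o A b * (tt o A ξ)⁻¹

omit [DecidableEq X] in
theorem dl_mul (η : ℕ → X) (b : VS o A) (ξ : ℕ → X) (c : VS o A) (ζ : ℕ → X) :
    dl o A η b ξ * dl o A ξ c ζ = dl o A η (b * c) ζ := by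
  simp only [dl, map_mul]
  group

omit [DecidableEq X] in
theorem dl_inv (η : ℕ → X) (b : VS o A) (ξ : ℕ → X) :
    (dl o A η b ξ)⁻¹ = dl o A ξ b⁻¹ η := by
  simp only [dl, map_inv]
  group

omit [DecidableEq X] in
theorem map_dl {B : Type} [Group B] (f : A →* B) (η : ℕ → X) (b : VS o A) (ξ : ℕ → X) :
    map o f (dl o A η b ξ) = dl o B η (VS.map o f b) ξ := by
  simp [dl]

end FF

omit [DecidableEq X] in
theorem dirU_mul {ξ η ζ : ℕ → X} {g h : PA X} (hg : Dir Set.univ ξ η g)
    (hh : Dir Set.univ η ζ h) : Dir Set.univ ξ ζ (h * g) :=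
  (hg.mul hh).mono (Set.subset_univ _)

omit [DecidableEq X] in
theorem dirU_inv {ξ η : ℕ → X} {g : PA X} (hg : Dir Set.univ ξ η g) : Dir Set.univ η ξ g⁻¹ :=
  hg.inv.mono (Set.subset_univ _)

omit [DecidableEq X] in
theorem Dir.act_pre {T : Set (PA X)} {ξ η : ℕ → X} {g : PA X} (hg : Dir T ξ η g)
    (n : ℕ) : g.act (pre ξ n) = pre η n := by
  induction n generalizing ξ η g with
  | zero => rfl
  | succ n ih =>
    obtain ⟨h1, _, h3⟩ := dir_iff.1 hg
    simp only [pre, PA.act_cons, h1, ih h3]

theorem realV_dir (φ : A →* PA X) (b : VS o A) :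
    Dir Set.univ (fun _ => o) (fun _ => o) (realV o φ b.1) := by
  intro n
  induction n generalizing b with
  | zero => trivial
  | succ n ih =>
    refine ⟨VS.perm_o b 0, fun _ _ => trivial, ?_⟩
    rw [realV_on]
    exact ih (VS.shift o A b)

namespace Co

variable (c : Co o A)

theorem φ_dl (η : ℕ → X) (b : VS o A) (ξ : ℕ → X) :
    c.next.φ (FF.dl o A η b ξ) = tray o η * realV o c.φ b.1 * (tray o ξ)⁻¹ := by
  rw [next_φ]
  simp [FF.dl]

theorem dl_dir (η : ℕ → X) (b : VS o A) (ξ : ℕ → X) :
    Dir Set.univ ξ η (c.next.φ (FF.dl o A η b ξ)) := by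
  rw [φ_dl]
  exact dirU_mul (dirU_inv (tray_dir o ξ _ trivial))
    (dirU_mul (realV_dir c.φ b) (tray_dir o η _ trivial))

theorem sec_dl (η : ℕ → X) (b : VS o A) (ξ : ℕ → X) (x : X) :
    (c.next.ψ (FF.dl o A η b ξ)).sec x =
      (c.next.ψ (FF.tt o A η)).sec ((b.1 0).perm (Equiv.swap o (ξ 0) x)) *
      (c.next.ψ (FF.inV o A b)).sec (Equiv.swap o (ξ 0) x) *
      ((c.next.ψ (FF.tt o A ξ)).sec (Equiv.swap o (ξ 0) x))⁻¹ := by
  simp only [FF.dl, map_mul, map_inv, Wr.mul_sec, Wr.inv_sec, Wr.inv_perm, next_ψ_inV_perm,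
    next_ψ_tt]
  rfl

theorem sec_dl_on (η : ℕ → X) (b : VS o A) (ξ : ℕ → X) :
    (c.next.ψ (FF.dl o A η b ξ)).sec (ξ 0) =
      FF.dl o A (shift η) (VS.shift o A b) (shift ξ) := by
  rw [sec_dl, Equiv.swap_apply_right, VS.perm_o b, next_ψ_tt, next_ψ_inV_on, next_ψ_tt]
  simp [FF.dl]

theorem sec_dl_off (η : ℕ → X) (b : VS o A) (ξ : ℕ → X) {x : X} (hx : x ≠ ξ 0) :
    ∃ a, (c.next.ψ (FF.dl o A η b ξ)).sec x = c.j a := by
  have h1 : Equiv.swap o (ξ 0) x ≠ o := by
    intro hc
    apply hx
    rw [← Equiv.swap_apply_left o (ξ 0)]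
    nth_rewrite 2 [← hc]
    rw [Equiv.swap_apply_self]
  refine ⟨(b.1 0).sec (Equiv.swap o (ξ 0) x), ?_⟩
  rw [sec_dl, next_ψ_tt, next_ψ_tt, next_ψ_inV_off c b h1]
  simp [VS.perm_ne b 0 h1, h1]

/-- the set of letters -/
def N : Set (FF o A) := {u | (∃ a, u = c.j a) ∨ ∃ η b ξ, u = FF.dl o A η b ξ}

theorem j_mem (a : A) : c.j a ∈ c.N := Or.inl ⟨a, rfl⟩
theorem dl_mem (η : ℕ → X) (b : VS o A) (ξ : ℕ → X) : FF.dl o A η b ξ ∈ c.N :=
  Or.inr ⟨η, b, ξ, rfl⟩

theorem secClosed : SecClosed c.next.ψ c.N := by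
  rintro u (⟨a, rfl⟩ | ⟨η, b, ξ, rfl⟩) x
  · rw [next_ψ_j]
    exact c.j_mem _
  · by_cases hx : x = ξ 0
    · subst hx
      rw [sec_dl_on]
      exact c.dl_mem _ _ _
    · obtain ⟨g, hg⟩ := c.sec_dl_off η b ξ hx
      rw [hg]
      exact c.j_mem g

theorem inv_mem_N {u : FF o A} (hu : u ∈ c.N) : u⁻¹ ∈ c.N := by
  rcases hu with ⟨g, rfl⟩ | ⟨η, b, ξ, rfl⟩
  · rw [← map_inv]; exact c.j_mem _
  · rw [FF.dl_inv]; exact c.dl_mem _ _ _

theorem secU_j (w : List X) (a : A) :
    secU c.next.ψ (c.j a) w = c.j (secU c.ψ a w) := by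
  induction w generalizing a with
  | nil => rfl
  | cons x w ih =>
    rw [secU_cons, secU_cons, next_ψ_j, Wr.map_sec, ih]

/-- sections of a directed letter at a word: either on the ray or in `A` -/
theorem secU_dl (η : ℕ → X) (b : VS o A) (ξ : ℕ → X) (v : List X) :
    (∃ a, secU c.next.ψ (FF.dl o A η b ξ) v = c.j a) ∨
    (v = pre ξ v.length ∧ ∃ b', secU c.next.ψ (FF.dl o A η b ξ) v =
      FF.dl o A (shift^[v.length] η) b' (shift^[v.length] ξ)) := by
  induction v generalizing η b ξ with
  | nil => exact Or.inr ⟨rfl, b, rfl⟩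
  | cons x v ih =>
    by_cases hx : x = ξ 0
    · subst hx
      rw [secU_cons, sec_dl_on]
      rcases ih (shift η) (VS.shift o A b) (shift ξ) with h | ⟨h1, b', h2⟩
      · exact Or.inl h
      · refine Or.inr ⟨?_, b', ?_⟩
        · simp only [List.length_cons, pre]
          rw [← h1]
        · rw [h2]
          simp only [List.length_cons, Function.iterate_succ_apply]
    · obtain ⟨g, hg⟩ := c.sec_dl_off η b ξ hx
      left
      rw [secU_cons, hg, secU_j]
      exact ⟨_, rfl⟩

theorem good_inv {u : FF o A} (hu : Good c.next.ψ c.N u) : Good c.next.ψ c.N u⁻¹ :=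
  hu.inv c.next.compat (fun _ ha => c.inv_mem_N ha)

theorem good_of_hyp [Finite X]
    (hGN : ∀ a η b ξ, Good c.next.ψ c.N (c.j a * FF.dl o A η b ξ)) (u : FF o A) :
    Good c.next.ψ c.N u := by
  have hNG : ∀ a η b ξ, Good c.next.ψ c.N (FF.dl o A η b ξ * c.j a) := by
    intro a η b ξ
    have h := c.good_inv (hGN a⁻¹ ξ b⁻¹ η)
    rw [mul_inv_rev, FF.dl_inv, map_inv, inv_inv, inv_inv] at h
    exact h
  have hN2 : ∀ a ∈ c.N, ∀ b ∈ c.N, Good c.next.ψ c.N (a * b) := by
    rintro a (⟨g, rfl⟩ | ⟨η, b, ξ, rfl⟩) d (⟨g', rfl⟩ | ⟨η', b', ξ', rfl⟩)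
    · rw [← map_mul]
      exact Good.of_mem (c.j_mem _)
    · exact hGN g η' b' ξ'
    · exact hNG g' η b ξ
    · by_cases h : η' = ξ
      · subst h
        rw [FF.dl_mul]
        exact Good.of_mem (c.dl_mem _ _ _)
      · obtain ⟨n, hn⟩ := pre_ne h
        refine Good.of_secs c.secClosed n _ fun v hv => ?_
        rw [secU_mul c.next.compat]
        rcases c.secU_dl η' b' ξ' v with ⟨g', hg'⟩ | ⟨h1, c', hc'⟩
        · rw [hg']
          rcases c.secU_dl η b ξ ((c.next.φ (FF.dl o A η' b' ξ')).act v) with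
            ⟨g, hg⟩ | ⟨_, c1, hc⟩
          · rw [hg, ← map_mul]
            exact Good.of_mem (c.j_mem _)
          · rw [hc]
            exact hNG _ _ _ _
        · rw [hc']
          rcases c.secU_dl η b ξ ((c.next.φ (FF.dl o A η' b' ξ')).act v) with
            ⟨g, hg⟩ | ⟨h2, c1, hc⟩
          · rw [hg]
            exact hGN _ _ _ _
          · exfalso
            rw [h1, hv, (c.dl_dir η' b' ξ').act_pre, length_pre] at h2
            exact hn h2
  have hu : u ∈ Subgroup.closure
      (Set.range (FF.inW o A) ∪ Set.range (FF.inV o A) ∪ Set.range (FF.tt o A)) := by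
    rw [FF.gen]; trivial
  induction hu using Subgroup.closure_induction with
  | mem x hx =>
    rcases hx with (⟨a, rfl⟩ | ⟨b, rfl⟩) | ⟨ξ, rfl⟩
    · refine Good.of_secs c.secClosed 1 _ fun v hv => ?_
      obtain ⟨x, rfl⟩ := List.length_eq_one_iff.1 hv
      rw [secU_cons, secU_nil, next_ψ_inW]
      exact Good.of_mem (c.j_mem _)
    · have : FF.inV o A b = FF.dl o A (fun _ => o) b (fun _ => o) := by
        simp [FF.dl, FF.tt_const]
      rw [this]
      exact Good.of_mem (c.dl_mem _ _ _)
    · have : FF.tt o A ξ = FF.dl o A ξ 1 (fun _ => o) := by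
        simp [FF.dl, FF.tt_const]
      rw [this]
      exact Good.of_mem (c.dl_mem _ _ _)
  | one =>
    rw [← map_one c.j]
    exact Good.of_mem (c.j_mem _)
  | mul x y hx hy ihx ihy => exact Good.mul c.next.compat c.secClosed hN2 ihx ihy
  | inv x hx ih => exact c.good_inv ih

/-- Contraction property for all stages above. -/
def Ctr {M : Type} [Group M] (c : Co o M) : Prop :=
  ∀ (A : Type) [Group A] (d : Co o A) (g : M →* A), (FF.map o g).comp c.j = d.j.comp g →
    ∀ (e : M) (η : ℕ → X) (b : VS o A) (ξ : ℕ → X),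
      Good d.next.ψ d.N (d.j (g e) * FF.dl o A η b ξ)

theorem Ctr.good [Finite X] {c : Co o A} (h : Ctr c) (u : FF o A) : Good c.next.ψ c.N u := by
  refine c.good_of_hyp (fun a η b ξ => ?_) u
  refine h A c (MonoidHom.id A) ?_ a η b ξ
  apply MonoidHom.ext
  intro x
  change FF.map o (MonoidHom.id A) (c.j x) = c.j x
  have : FF.map o (MonoidHom.id A) = MonoidHom.id _ := by
    apply FF.hom_ext
    · intro a; simp only [FF.map_inW]; rfl
    · intro b; simp only [FF.map_inV]; rfl
    · intro ξ; simp only [FF.map_tt]; rfl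
  rw [this]
  rfl

theorem Ctr.step [Finite X] {M : Type} [Group M] {c : Co o M} (h : Ctr c) : Ctr c.next := by
  intro A _ d g hg e η b ξ
  rw [next_j] at hg
  -- the composite
  let g' : M →* A := g.comp c.j
  have hjg : d.j.comp g = FF.map o g' := by
    rw [← hg, FF.map_comp]
  have hjg' : ∀ u, d.j (g u) = FF.map o g' u := fun u => DFunLike.congr_fun hjg u
  have hmor : (FF.map o g').comp c.j = d.j.comp g' := by
    rw [← hjg]
    rfl
  have hmor' : ∀ m, FF.map o g' (c.j m) = d.j (g' m) := fun m => DFunLike.congr_fun hmor m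
  have hsec : ∀ (u : FF o M) (v : List X),
      secU d.next.ψ (FF.map o g' u) v = FF.map o g' (secU c.next.ψ u v) := by
    have h1 : (d.next.ψ).comp (FF.map o g') = (Wr.map (FF.map o g')).comp c.next.ψ := by
      rw [next_ψ, next_ψ, FF.ext_map, FF.map_ext, hmor]
      rfl
    intro u v
    induction v generalizing u with
    | nil => rfl
    | cons x v ih =>
      rw [secU_cons, secU_cons]
      have h2 := DFunLike.congr_fun h1 u
      have h3 := congrArg (fun w : Wr (FF o A) X => w.sec x) h2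
      have h4 : (d.next.ψ (FF.map o g' u)).sec x = FF.map o g' ((c.next.ψ u).sec x) := h3
      rw [h4, ih]
  obtain ⟨n, hn⟩ := h.good e
  refine Good.of_secs d.secClosed n _ fun v hv => ?_
  rw [secU_mul d.next.compat]
  rcases d.secU_dl η b ξ v with ⟨a, ha⟩ | ⟨_, b2, hb2⟩
  · rw [ha, secU_j, ← map_mul]
    exact Good.of_mem (d.j_mem _)
  · rw [hb2, hjg', hsec]
    have hlen : ((d.next.φ (FF.dl o A η b ξ)).act v).length = n := by
      rw [PA.length_act, hv]
    revert hlen
    generalize (d.next.φ (FF.dl o A η b ξ)).act v = v'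
    generalize shift^[v.length] η = η2
    generalize shift^[v.length] ξ = ξ2
    intro hlen
    rcases hn v' hlen with ⟨m, hm⟩ | ⟨η', b', ξ', h'⟩
    · rw [hm, hmor']
      exact h A d g' hmor m _ _ _
    · rw [h']
      by_cases hξ : ξ' = η2
      · subst hξ
        rw [FF.map_dl, FF.dl_mul]
        exact Good.of_mem (d.dl_mem _ _ _)
      · obtain ⟨k, hk⟩ := pre_ne hξ
        refine Good.of_secs d.secClosed k _ fun v2 hv2 => ?_
        rw [secU_mul d.next.compat]
        rcases d.secU_dl η2 b2 ξ2 v2 with ⟨a, ha⟩ | ⟨h1, b3, hb3⟩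
        · rw [ha, ← hjg', secU_j, ← map_mul]
          exact Good.of_mem (d.j_mem _)
        · rw [hb3, hsec]
          rcases c.secU_dl η' b' ξ' ((d.next.φ (FF.dl o A η2 b2 ξ2)).act v2) with
            ⟨m, hm⟩ | ⟨h2, _, _⟩
          · rw [hm, hmor']
            exact h A d g' hmor m _ _ _
          · exfalso
            rw [h1, hv2, (d.dl_dir η2 b2 ξ2).act_pre, length_pre] at h2
            exact hk h2.symm

end Co

end Pool.Agent.helper16.FJ
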