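import Pool.Agent.helper16.FJ.Rays

set_option autoImplicit false

/-!
# Wreath recursions: quotients by the union of the kernels
-/

namespace Pool.Agent.helper16.FJ

variable {U X : Type} [Group U]

/-- the `n`-th kernel of a wreath recursion, with its normality -/
def kern (ψ : U →* Wr U X) : ℕ → {N : Subgroup U // N.Normal}
  | 0 => ⟨⊥, inferInstance⟩
  | n + 1 =>
    letI := (kern ψ n).2
    ⟨((Wr.map (QuotientGroup.mk' (kern ψ n).1)).comp ψ).ker, inferInstance⟩

/-- the `n`-th kernel of a wreath recursion -/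
def K (ψ : U →* Wr U X) (n : ℕ) : Subgroup U := (kern ψ n).1

instance (ψ : U →* Wr U X) (n : ℕ) : (K ψ n).Normal := (kern ψ n).2

theorem mem_K_zero (ψ : U →* Wr U X) (u : U) : u ∈ K ψ 0 ↔ u = 1 := Subgroup.mem_bot

theorem K_succ (ψ : U →* Wr U X) (n : ℕ) :
    K ψ (n + 1) = ((Wr.map (QuotientGroup.mk' (K ψ n))).comp ψ).ker := rfl

theorem mem_K_succ (ψ : U →* Wr U X) (n : ℕ) (u : U) :
    u ∈ K ψ (n + 1) ↔ (ψ u).perm = 1 ∧ ∀ x, (ψ u).sec x ∈ K ψ n := by
  rw [K_succ, MonoidHom.mem_ker]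
  constructor
  · intro h
    refine ⟨congrArg Wr.perm h, fun x => ?_⟩
    have := congrFun (congrArg Wr.sec h) x
    exact (QuotientGroup.eq_one_iff _).1 this
  · rintro ⟨h1, h2⟩
    ext x
    · exact DFunLike.congr_fun h1 x
    · exact (QuotientGroup.eq_one_iff _).2 (h2 x)

theorem K_le_succ (ψ : U →* Wr U X) (n : ℕ) : K ψ n ≤ K ψ (n + 1) := by
  induction n with
  | zero =>
    intro u hu
    rw [mem_K_zero] at hu
    subst hu
    exact one_mem _
  | succ n ih =>
    intro u hu
    rw [mem_K_succ] at hu ⊢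
    exact ⟨hu.1, fun x => ih (hu.2 x)⟩

theorem K_mono (ψ : U →* Wr U X) {m n : ℕ} (h : m ≤ n) : K ψ m ≤ K ψ n := by
  induction h with
  | refl => exact le_rfl
  | step _ ih => exact ih.trans (K_le_succ ψ _)

/-- A homomorphism to tree automorphisms compatible with a wreath recursion. -/
def Compat (ψ : U →* Wr U X) (Φ : U →* PA X) : Prop :=
  ∀ u, PA.toWr (Φ u) = Wr.map Φ (ψ u)

variable {ψ : U →* Wr U X} {Φ : U →* PA X}

theorem Compat.root (h : Compat ψ Φ) (u : U) : (Φ u) [] = (ψ u).perm :=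
  congrArg Wr.perm (h u)

theorem Compat.sec (h : Compat ψ Φ) (u : U) (x : X) : (Φ u).sec x = Φ ((ψ u).sec x) :=
  congrFun (congrArg Wr.sec (h u)) x

theorem K_le_ker (h : Compat ψ Φ) (n : ℕ) : K ψ n ≤ Φ.ker := by
  induction n with
  | zero =>
    intro u hu
    rw [mem_K_zero] at hu
    subst hu
    exact one_mem _
  | succ n ih =>
    intro u hu
    rw [mem_K_succ] at hu
    rw [MonoidHom.mem_ker, PA.sec_eq_one_iff]
    refine ⟨by rw [h.root, hu.1], fun x => ?_⟩
    rw [h.sec]
    exact ih (hu.2 x)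

section cls

variable {P : ∀ (G : Type) [Group G], Prop}

theorem Inherit.quot_K (hP : Inherit P) [Finite X] (hU : P U) (n : ℕ) : P (U ⧸ K ψ n) := by
  induction n with
  | zero =>
    have : K ψ 0 = ⊥ := rfl
    exact hP.of_mulEquiv (QuotientGroup.quotientBot (G := U)).symm hU
  | succ n ih =>
    have h := hP.subgroup _ (hP.wr ih X) ((Wr.map (QuotientGroup.mk' (K ψ n))).comp ψ).range
    exact hP.of_mulEquiv
      (QuotientGroup.quotientKerEquivRange ((Wr.map (QuotientGroup.mk' (K ψ n))).comp ψ)).symm h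

theorem Inherit.range_of_recursion (hP : Inherit P) [Finite X] (hU : P U) (h : Compat ψ Φ)
    (hker : ∀ u, Φ u = 1 → ∃ n, u ∈ K ψ n) : P Φ.range := by
  refine hP.colim ℕ (fun n => U ⧸ K ψ n)
    (fun i j hij => QuotientGroup.map (K ψ i) (K ψ j) (MonoidHom.id U) (K_mono ψ hij))
    Φ.range
    (fun n => QuotientGroup.lift (K ψ n) Φ.rangeRestrict (by
      intro u hu
      have := K_le_ker h n hu
      rw [MonoidHom.mem_ker] at this ⊢
      exact Subtype.ext this)) ?_ ?_ ?_ ?_ ?_ (fun n => hP.quot_K hU n)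
  · intro i x
    induction x using QuotientGroup.induction_on
    rfl
  · intro i j k hij hjk x
    induction x using QuotientGroup.induction_on
    rfl
  · intro i j hij x
    induction x using QuotientGroup.induction_on
    rfl
  · rintro ⟨_, u, rfl⟩
    exact ⟨0, (u : U ⧸ K ψ 0), rfl⟩
  · intro i x
    induction x using QuotientGroup.induction_on with
    | H u =>
      intro hx
      have hu : Φ u = 1 := congrArg Subtype.val hx
      obtain ⟨n, hn⟩ := hker u hu
      refine ⟨max i n, le_max_left _ _, ?_⟩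
      exact (QuotientGroup.eq_one_iff u).2 (K_mono ψ (le_max_right i n) hn)

end cls

/-! ### Contraction -/

/-- sections of elements of `U` at words -/
def secU (ψ : U →* Wr U X) (u : U) : List X → U
  | [] => u
  | x :: v => secU ψ ((ψ u).sec x) v

@[simp] theorem secU_nil (u : U) : secU ψ u [] = u := rfl
theorem secU_cons (u : U) (x : X) (v : List X) :
    secU ψ u (x :: v) = secU ψ ((ψ u).sec x) v := rfl

theorem secU_append (u : U) (v w : List X) :
    secU ψ u (v ++ w) = secU ψ (secU ψ u v) w := by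
  induction v generalizing u with
  | nil => rfl
  | cons x v ih => exact ih _

theorem secU_mul (h : Compat ψ Φ) (u w : U) (v : List X) :
    secU ψ (u * w) v = secU ψ u ((Φ w).act v) * secU ψ w v := by
  induction v generalizing u w with
  | nil => rfl
  | cons x v ih =>
    rw [PA.act_cons, secU_cons, secU_cons, secU_cons, map_mul, Wr.mul_sec, ih, h.root, h.sec]

theorem secU_one (v : List X) : secU ψ 1 v = 1 := by
  induction v with
  | nil => rfl
  | cons x v ih => rw [secU_cons, map_one, Wr.one_sec, ih]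

/-- all deep sections are in `N` -/
def Good (ψ : U →* Wr U X) (N : Set U) (u : U) : Prop :=
  ∃ n, ∀ v : List X, v.length = n → secU ψ u v ∈ N

theorem mem_K_of_secU (h : Compat ψ Φ) (n : ℕ) (u : U) (hu : Φ u = 1)
    (hv : ∀ v : List X, v.length = n → secU ψ u v = 1) : u ∈ K ψ n := by
  induction n generalizing u with
  | zero =>
    rw [mem_K_zero]
    exact hv [] rfl
  | succ n ih =>
    rw [mem_K_succ]
    refine ⟨by rw [← h.root, hu]; rfl, fun x => ih _ ?_ ?_⟩
    · rw [← h.sec, hu]; rfl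
    · intro v hl
      exact hv (x :: v) (by simp [hl])

theorem map_secU (h : Compat ψ Φ) (u : U) (v : List X) :
    Φ (secU ψ u v) = (Φ u).secw v := by
  induction v generalizing u with
  | nil => rfl
  | cons x v ih => rw [secU_cons, ih, ← h.sec]; rfl

theorem Good.kernel (h : Compat ψ Φ) {N : Set U} (hN : ∀ u ∈ N, Φ u = 1 → u = 1) {u : U}
    (hu : Good ψ N u) (h1 : Φ u = 1) : ∃ n, u ∈ K ψ n := by
  obtain ⟨n, hn⟩ := hu
  refine ⟨n, mem_K_of_secU h n u h1 fun v hv => hN _ (hn v hv) ?_⟩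
  rw [map_secU h, h1]
  rfl

/-- closed under sections -/
def SecClosed (ψ : U →* Wr U X) (N : Set U) : Prop := ∀ u ∈ N, ∀ x, (ψ u).sec x ∈ N

theorem SecClosed.secU {N : Set U} (hN : SecClosed ψ N) {u : U} (hu : u ∈ N) (v : List X) :
    secU ψ u v ∈ N := by
  induction v generalizing u with
  | nil => exact hu
  | cons x v ih => exact ih (hN u hu x)

theorem good_mono {N : Set U} (hN : SecClosed ψ N) {u : U} {m n : ℕ} (hmn : m ≤ n)
    (h : ∀ v : List X, v.length = m → secU ψ u v ∈ N) :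
    ∀ v : List X, v.length = n → secU ψ u v ∈ N := by
  intro v hv
  rw [← List.take_append_drop m v, secU_append]
  apply hN.secU
  apply h
  simp; omega

theorem Good.of_mem {N : Set U} {u : U} (hu : u ∈ N) : Good ψ N u :=
  ⟨0, fun v hv => by
    rw [List.length_eq_zero_iff] at hv
    subst hv
    exact hu⟩

theorem Good.of_secs [Finite X] {N : Set U} (hN : SecClosed ψ N) (n : ℕ) (u : U)
    (h : ∀ v : List X, v.length = n → Good ψ N (FJ.secU ψ u v)) : Good ψ N u := by
  induction n generalizing u with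
  | zero => exact h [] rfl
  | succ n ih =>
    have h1 : ∀ x : X, Good ψ N ((ψ u).sec x) := fun x =>
      ih _ fun v hv => h (x :: v) (by simp [hv])
    choose f hf using h1
    obtain ⟨M, hM⟩ := (Set.finite_range f).bddAbove
    refine ⟨M + 1, fun v hv => ?_⟩
    cases v with
    | nil => simp at hv
    | cons x v =>
      rw [secU_cons]
      exact good_mono hN (hM ⟨x, rfl⟩) (hf x) v (by simpa using hv)

theorem Good.mul [Finite X] (h : Compat ψ Φ) {N : Set U} (hN : SecClosed ψ N)
    (hN2 : ∀ a ∈ N, ∀ b ∈ N, Good ψ N (a * b)) {u w : U} (hu : Good ψ N u) (hw : Good ψ N w) :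
    Good ψ N (u * w) := by
  obtain ⟨m, hm⟩ := hu
  obtain ⟨n, hn⟩ := hw
  refine Good.of_secs hN (max m n) _ fun v hv => ?_
  rw [secU_mul h]
  apply hN2
  · exact good_mono hN (le_max_left m n) hm _ (by simpa using hv)
  · exact good_mono hN (le_max_right m n) hn _ hv

theorem Good.all [Finite X] (h : Compat ψ Φ) {N : Set U} (hN : SecClosed ψ N)
    (hN2 : ∀ a ∈ N, ∀ b ∈ N, Good ψ N (a * b)) (hN3 : ∀ a ∈ N, a⁻¹ ∈ N) (hN1 : (1 : U) ∈ N)
    (hgen : Subgroup.closure N = ⊤) (u : U) : Good ψ N u := by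
  have hu : u ∈ Subgroup.closure N := by rw [hgen]; trivial
  induction hu using Subgroup.closure_induction_right with
  | one => exact Good.of_mem hN1
  | mul_right x hx y hy ih => exact Good.mul h hN hN2 ih (Good.of_mem hy)
  | mul_inv_cancel x hx y hy ih => exact Good.mul h hN hN2 ih (Good.of_mem (hN3 y hy))

theorem secU_inv (h : Compat ψ Φ) (u : U) (v : List X) :
    secU ψ u⁻¹ v = (secU ψ u ((Φ u)⁻¹.act v))⁻¹ := by
  have h1 := secU_mul h u u⁻¹ v
  rw [mul_inv_cancel, secU_one, map_inv] at h1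
  exact (inv_eq_of_mul_eq_one_right h1.symm).symm

theorem Good.inv (h : Compat ψ Φ) {N : Set U} (hN3 : ∀ a ∈ N, a⁻¹ ∈ N) {u : U}
    (hu : Good ψ N u) : Good ψ N u⁻¹ := by
  obtain ⟨n, hn⟩ := hu
  refine ⟨n, fun v hv => ?_⟩
  rw [secU_inv h]
  exact hN3 _ (hn _ (by simpa using hv))

end Pool.Agent.helper16.FJ
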