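import Pool.Agent.helper16.FJ.Main

set_option autoImplicit false

/-!
# Tame automorphisms (portraits)
-/

namespace Pool.Agent.helper16.FJ

variable {X : Type}

/-- tame portraits -/
inductive TameP : PA X → Prop
  | one : TameP 1
  | glue (g : PA X) : (∀ x, TameP (g.sec x)) → TameP g
  | dir (g : PA X) (ξ : ℕ → X) (T : Set (PA X)) : T.Finite → (∀ t ∈ T, TameP t) →
      (∀ n y, y ≠ ξ n → g.secw (pre ξ n ++ [y]) ∈ T) → TameP g

theorem dir_of_secw {T : Set (PA X)} (g : PA X) (ξ : ℕ → X)
    (h : ∀ n y, y ≠ ξ n → g.secw (pre ξ n ++ [y]) ∈ T) :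
    Dir T ξ (fun n => g (pre ξ n) (ξ n)) g := by
  intro m
  induction m generalizing g ξ with
  | zero => trivial
  | succ m ih =>
    refine ⟨rfl, fun x hx => h 0 x hx, ?_⟩
    exact ih (g.sec (ξ 0)) (shift ξ) fun n y hy => h (n + 1) y hy

theorem TameP.mem_GU [DecidableEq X] [Finite X] (o : X) {g : PA X} (hg : TameP g) :
    g ∈ GU o := by
  induction hg with
  | one => exact one_mem _
  | glue g _ ih =>
    have h1 : ∀ x, ∃ l, g.sec x ∈ GD o l := ih
    choose f hf using h1
    obtain ⟨M, hM⟩ := (Set.finite_range f).bddAbove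
    exact ⟨M + 1, mem_GD_glue fun x => GD_mono o (hM ⟨x, rfl⟩) (hf x)⟩
  | dir g ξ T hT _ h ih =>
    have h1 : ∀ t : T, ∃ l, t.1 ∈ GD o l := fun t => ih t.1 t.2
    choose f hf using h1
    have hfin : Finite T := hT.to_subtype
    obtain ⟨M, hM⟩ := (Set.finite_range f).bddAbove
    have h2 : T ⊆ (GD o M : Set (PA X)) := fun t ht => GD_mono o (hM ⟨⟨t, ht⟩, rfl⟩) (hf ⟨t, ht⟩)
    exact ⟨M + 1, mem_GD_dir ⟨T, hT, h2, dir_of_secw g ξ h⟩⟩

/-- gluing at a deeper level -/
theorem TameP.glue_level (n : ℕ) (g : PA X) (h : ∀ v : List X, v.length = n → TameP (g.secw v)) :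
    TameP g := by
  induction n generalizing g with
  | zero => exact h [] rfl
  | succ n ih =>
    exact TameP.glue g fun x => ih _ fun v hv => h (x :: v) (by simp [hv])

theorem TameP.of_fin (C : ℕ) (g : PA X) (hg : g ∈ PA.fin X C) : TameP g := by
  refine TameP.glue_level C g fun v hv => ?_
  rw [PA.secw_fin hg v (by omega)]
  exact TameP.one

/-! ### Automorphisms of bounded type -/

theorem pre_add (ξ : ℕ → X) (m n : ℕ) : pre ξ (m + n) = pre ξ m ++ pre (shift^[m] ξ) n := by
  induction m generalizing ξ with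
  | zero => simp [pre]
  | succ m ih =>
    rw [show m + 1 + n = (m + n) + 1 by omega]
    simp only [pre, ih, List.cons_append, Function.iterate_succ_apply]

theorem pre_take (ξ : ℕ → X) {m n : ℕ} (h : m ≤ n) : (pre ξ n).take m = pre ξ m := by
  obtain ⟨k, rfl⟩ := Nat.exists_eq_add_of_le h
  rw [pre_add, List.take_append_of_le_length (by simp)]
  simp

theorem shift_iter_apply (ξ : ℕ → X) (m n : ℕ) : (shift^[m] ξ) n = ξ (m + n) := by
  induction m generalizing ξ n with
  | zero => simp
  | succ m ih =>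
    rw [Function.iterate_succ_apply, ih]
    simp only [shift]
    congr 1
    omega

/-- one ray -/
theorem TameP.of_ray [Finite X] (C : ℕ) (ξ : ℕ → X) (g : PA X)
    (h : ∀ v, g v ≠ 1 → ∃ n w, w.length ≤ C ∧ v = pre ξ n ++ w) : TameP g := by
  refine TameP.dir g ξ (PA.fin X C) ?_ (fun t ht => TameP.of_fin C t ht) ?_
  · have := PA.fin_finite X C
    exact Set.toFinite _
  · intro n y hy v hv
    by_contra hne
    have h1 : g (pre ξ n ++ [y] ++ v) ≠ 1 := hne
    obtain ⟨m, w, hw, he⟩ := h _ h1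
    -- `m ≤ n`, so that `w` is long
    have hlen := congrArg List.length he
    simp only [List.length_append, length_pre, List.length_singleton] at hlen
    have hmn : n < m := by omega
    have h2 := congrArg (List.take (n + 1)) he
    rw [List.take_append_of_le_length (by simp), List.take_of_length_le (by simp),
      List.take_append_of_le_length (by simp; omega), pre_take ξ (by omega), pre_add] at h2
    have h3 := List.append_cancel_left h2
    simp only [pre, List.cons.injEq, and_true] at h3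
    apply hy
    rw [h3, shift_iter_apply]
    rfl

theorem TameP.of_rays [Finite X] (C : ℕ) (R : Set (ℕ → X)) (hR : R.Finite) (g : PA X)
    (h : ∀ v, g v ≠ 1 → ∃ ξ ∈ R, ∃ n w, w.length ≤ C ∧ v = pre ξ n ++ w) : TameP g := by
  classical
  -- a level at which the rays are separated
  have hfin : Finite R := hR.to_subtype
  obtain ⟨N, hN⟩ : ∃ N, ∀ ξ ∈ R, ∀ η ∈ R, pre ξ N = pre η N → ξ = η := by
    have h1 : ∀ p : R × R, ∃ n, p.1.1 ≠ p.2.1 → pre p.1.1 n ≠ pre p.2.1 n := by
      rintro ⟨ξ, η⟩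
      by_cases he : ξ.1 = η.1
      · exact ⟨0, fun h => absurd he h⟩
      · obtain ⟨n, hn⟩ := pre_ne he
        exact ⟨n, fun _ => hn⟩
    choose f hf using h1
    obtain ⟨M, hM⟩ := (Set.finite_range f).bddAbove
    refine ⟨M, fun ξ hξ η hη he => ?_⟩
    by_contra hne
    apply hf (⟨ξ, hξ⟩, ⟨η, hη⟩) hne
    have hle : f (⟨ξ, hξ⟩, ⟨η, hη⟩) ≤ M := hM ⟨_, rfl⟩
    rw [← pre_take ξ hle, ← pre_take η hle, he]
  refine TameP.glue_level N g fun v hv => ?_
  by_cases hv2 : ∃ ξ ∈ R, v = pre ξ N
  · obtain ⟨ξ, hξ, rfl⟩ := hv2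
    refine TameP.of_ray C (shift^[N] ξ) _ ?_
    intro u hu
    obtain ⟨η, hη, n, w, hw, he⟩ := h (pre ξ N ++ u) hu
    by_cases hn : N ≤ n
    · have h2 := congrArg (List.take N) he
      rw [List.take_append_of_le_length (by simp), List.take_of_length_le (by simp),
        List.take_append_of_le_length (by simp; omega), pre_take η hn] at h2
      have h3 := hN ξ hξ η hη h2
      subst h3
      obtain ⟨k, rfl⟩ := Nat.exists_eq_add_of_le hn
      rw [pre_add, List.append_assoc] at he
      exact ⟨k, w, hw, List.append_cancel_left he⟩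
    · refine ⟨0, u, ?_, rfl⟩
      have hlen := congrArg List.length he
      simp only [List.length_append, length_pre] at hlen
      omega
  · refine TameP.of_fin C _ ?_
    intro u hu
    by_contra hne
    have h1 : g (v ++ u) ≠ 1 := hne
    obtain ⟨η, hη, n, w, hw, he⟩ := h _ h1
    have hlen := congrArg List.length he
    simp only [List.length_append, length_pre, hv] at hlen
    by_cases hn : N ≤ n
    · apply hv2
      refine ⟨η, hη, ?_⟩
      have h2 := congrArg (List.take N) he
      rw [List.take_append_of_le_length (by omega), List.take_of_length_le (by omega),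
        List.take_append_of_le_length (by simp; omega), pre_take η hn] at h2
      exact h2
    · omega

/-! ### Finite-state automorphisms of polynomial activity -/

section fs

/-- `q` has at least two different non-tame sections at level `s` -/
def Two (q : PA X) (s : ℕ) : Prop := ∃ v w : List X, v.length = s ∧ w.length = s ∧ v ≠ w ∧
  ¬ TameP (q.secw v) ∧ ¬ TameP (q.secw w)

theorem exists_bad (q : PA X) (hq : ¬ TameP q) : ∃ x, ¬ TameP (q.sec x) := by
  by_contra hc
  push Not at hc
  exact hq (TameP.glue q hc)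

theorem exists_bad_level (q : PA X) (hq : ¬ TameP q) (n : ℕ) :
    ∃ v : List X, v.length = n ∧ ¬ TameP (q.secw v) := by
  by_contra hc
  push Not at hc
  exact hq (TameP.glue_level n q hc)

theorem Two.mono {q : PA X} {s t : ℕ} (hst : s ≤ t) (h : Two q s) : Two q t := by
  obtain ⟨v, w, hv, hw, hne, h1, h2⟩ := h
  obtain ⟨k, rfl⟩ := Nat.exists_eq_add_of_le hst
  obtain ⟨v', hv', h1'⟩ := exists_bad_level _ h1 k
  obtain ⟨w', hw', h2'⟩ := exists_bad_level _ h2 k
  refine ⟨v ++ v', w ++ w', by simp [hv, hv'], by simp [hw, hw'], ?_, ?_, ?_⟩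
  · intro he
    exact hne (List.append_inj_left he (by rw [hv, hw]))
  · rw [PA.secw_append]; exact h1'
  · rw [PA.secw_append]; exact h2'

theorem exists_two (q : PA X) (hfin : (Set.range q.secw).Finite) (hq : ¬ TameP q) :
    ∃ s, Two q s := by
  by_contra hc
  push Not at hc
  -- the unique ray of non-tame sections
  have h1 : ∀ p : PA X, ∃ x, ¬ TameP p → ¬ TameP (p.sec x) := by
    intro p
    by_cases hp : TameP p
    · obtain ⟨x, _⟩ := exists_bad q hq
      exact ⟨x, fun h => absurd hp h⟩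
    · obtain ⟨x, hx⟩ := exists_bad p hp
      exact ⟨x, fun _ => hx⟩
  choose f hf using h1
  let sq : ℕ → PA X := fun n => (fun p => PA.sec p (f p))^[n] q
  let ξ : ℕ → X := fun n => f (sq n)
  have hsq : ∀ n, sq (n + 1) = (sq n).sec (ξ n) := fun n => Function.iterate_succ_apply' _ n q
  have hbad : ∀ n, ¬ TameP (sq n) := by
    intro n
    induction n with
    | zero => exact hq
    | succ n ih => rw [hsq]; exact hf _ ih
  have hsec : ∀ n m, (sq m).secw (pre (shift^[m] ξ) n) = sq (m + n) := by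
    intro n
    induction n with
    | zero => intro m; rfl
    | succ n ih =>
      intro m
      rw [pre, PA.secw_cons]
      have e1 : (shift^[m] ξ) 0 = ξ m := by rw [shift_iter_apply]; rfl
      have e2 : shift (shift^[m] ξ) = shift^[m + 1] ξ := (Function.iterate_succ_apply' _ _ _).symm
      rw [e1, ← hsq, e2, ih]
      congr 1
      omega
  have hsec0 : ∀ n, q.secw (pre ξ n) = sq n := by
    intro n
    have := hsec n 0
    rw [Nat.zero_add] at this
    exact this
  apply hq
  refine TameP.dir q ξ {t | t ∈ Set.range q.secw ∧ TameP t} (hfin.subset fun t ht => ht.1)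
    (fun t ht => ht.2) ?_
  intro n y hy
  refine ⟨⟨_, rfl⟩, ?_⟩
  by_contra hne
  apply hc (n + 1)
  refine ⟨pre ξ n ++ [y], pre ξ n ++ [ξ n], by simp, by simp, ?_, hne, ?_⟩
  · intro he
    have := List.append_cancel_left he
    simp only [List.cons.injEq, and_true] at this
    exact hy this
  · rw [PA.secw_append, hsec0, PA.secw_singleton, ← hsq]
    exact hbad _

/-- exponentially many non-tame sections -/
theorem exists_many (Qs : Set (PA X)) (s : ℕ) (hcl : ∀ q ∈ Qs, ∀ v, q.secw v ∈ Qs)
    (h2 : ∀ q ∈ Qs, ¬ TameP q → Two q s) (k : ℕ) :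
    ∀ q ∈ Qs, ¬ TameP q → ∃ F : Finset (List X), F.card = 2 ^ k ∧
      ∀ v ∈ F, v.length = s * k ∧ ¬ TameP (q.secw v) := by
  classical
  induction k with
  | zero =>
    intro q _ hbad
    refine ⟨{[]}, by simp, ?_⟩
    intro v hv
    rw [Finset.mem_singleton] at hv
    subst hv
    exact ⟨rfl, hbad⟩
  | succ k ih =>
    intro q hq hbad
    obtain ⟨v, w, hv, hw, hne, h3, h4⟩ := h2 q hq hbad
    obtain ⟨F, hF, hF2⟩ := ih _ (hcl q hq v) h3
    obtain ⟨F', hF', hF2'⟩ := ih _ (hcl q hq w) h4
    have hinj : ∀ u : List X, Function.Injective (fun t : List X => u ++ t) :=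
      fun u a b hab => List.append_cancel_left hab
    refine ⟨F.image (fun t => v ++ t) ∪ F'.image (fun t => w ++ t), ?_, ?_⟩
    · rw [Finset.card_union_of_disjoint, Finset.card_image_of_injective _ (hinj v),
        Finset.card_image_of_injective _ (hinj w), hF, hF']
      · ring
      · rw [Finset.disjoint_left]
        intro t ht ht'
        simp only [Finset.mem_image] at ht ht'
        obtain ⟨a, _, rfl⟩ := ht
        obtain ⟨b, _, hb⟩ := ht'
        exact hne (List.append_inj_left hb.symm (by rw [hv, hw]))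
    · intro t ht
      simp only [Finset.mem_union, Finset.mem_image] at ht
      rcases ht with ⟨a, ha, rfl⟩ | ⟨a, ha, rfl⟩
      · refine ⟨?_, ?_⟩
        · rw [List.length_append, hv, (hF2 a ha).1]; ring
        · rw [PA.secw_append]; exact (hF2 a ha).2
      · refine ⟨?_, ?_⟩
        · rw [List.length_append, hw, (hF2' a ha).1]; ring
        · rw [PA.secw_append]; exact (hF2' a ha).2

theorem exists_pow_lt (K d s : ℕ) : ∃ k : ℕ, K * (s * k + 1) ^ d < 2 ^ k := by
  have h1 := tendsto_pow_const_div_const_pow_of_one_lt d (one_lt_two (α := ℝ))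
  have h2 : ∀ᶠ n : ℕ in Filter.atTop, (n : ℝ) ^ d / 2 ^ n < 1 / (2 * ((K + 1) * (s + 1) ^ d)) := by
    apply (tendsto_order.1 h1).2
    positivity
  obtain ⟨n, hn1, hn⟩ := (h2.and (Filter.eventually_ge_atTop 1)).exists
  refine ⟨n, ?_⟩
  have h3 : (n : ℝ) ^ d * (2 * ((K + 1) * (s + 1) ^ d)) < 2 ^ n := by
    rw [div_lt_div_iff₀ (by positivity) (by positivity)] at hn1
    linarith
  have h4 : (K : ℝ) * (s * n + 1) ^ d ≤ (n : ℝ) ^ d * (2 * ((K + 1) * (s + 1) ^ d)) := by
    have h5 : ((s : ℝ) * n + 1) ≤ n * (s + 1) := by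
      have : (1 : ℝ) ≤ n := by exact_mod_cast hn
      nlinarith
    have h6 : ((s : ℝ) * n + 1) ^ d ≤ (n * (s + 1)) ^ d := by
      apply pow_le_pow_left₀ (by positivity) h5
    rw [mul_pow] at h6
    have h7 : (0 : ℝ) ≤ (n : ℝ) ^ d * (s + 1) ^ d := by positivity
    have h8 : (K : ℝ) * (s * n + 1) ^ d ≤ K * ((n : ℝ) ^ d * (s + 1) ^ d) := by
      apply mul_le_mul_of_nonneg_left h6 (by positivity)
    nlinarith
  have h9 : (K : ℝ) * (s * n + 1) ^ d < 2 ^ n := lt_of_le_of_lt h4 h3
  exact_mod_cast h9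

theorem TameP.of_poly [Finite X] (g : PA X) (hfin : (Set.range g.secw).Finite) (K d : ℕ)
    (hact : ∀ n, {v : List X | v.length = n ∧ g.secw v ≠ 1}.ncard ≤ K * (n + 1) ^ d) :
    TameP g := by
  classical
  by_contra hbad
  -- a uniform level
  let Qs : Set (PA X) := Set.range g.secw
  have hcl : ∀ q ∈ Qs, ∀ v, q.secw v ∈ Qs := by
    rintro _ ⟨u, rfl⟩ v
    exact ⟨u ++ v, PA.secw_append g u v⟩
  have h1 : ∀ q : Qs, ∃ s, ¬ TameP q.1 → Two q.1 s := by
    intro q
    by_cases hq : TameP q.1
    · exact ⟨0, fun h => absurd hq h⟩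
    · obtain ⟨s, hs⟩ := exists_two q.1 (hfin.subset (by
        rintro _ ⟨v, rfl⟩
        exact hcl q.1 q.2 v)) hq
      exact ⟨s, fun _ => hs⟩
  choose f hf using h1
  have hfQ : Finite Qs := hfin.to_subtype
  obtain ⟨s, hs⟩ := (Set.finite_range f).bddAbove
  have h2 : ∀ q ∈ Qs, ¬ TameP q → Two q s := fun q hq hb =>
    (hf ⟨q, hq⟩ hb).mono (hs ⟨_, rfl⟩)
  obtain ⟨k, hk⟩ := exists_pow_lt K d s
  obtain ⟨F, hF, hF2⟩ := exists_many Qs s hcl h2 k g ⟨[], rfl⟩ hbad
  have h3 : (F : Set (List X)) ⊆ {v : List X | v.length = s * k ∧ g.secw v ≠ 1} := by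
    intro v hv
    obtain ⟨h4, h5⟩ := hF2 v hv
    refine ⟨h4, fun h6 => h5 ?_⟩
    rw [h6]
    exact TameP.one
  have h4 : {v : List X | v.length = s * k ∧ g.secw v ≠ 1}.Finite :=
    (List.finite_length_eq X (s * k)).subset fun v hv => hv.1
  have h5 := Set.ncard_le_ncard h3 h4
  rw [Set.ncard_coe_finset, hF] at h5
  have h6 := hact (s * k)
  omega

end fs

end Pool.Agent.helper16.FJ
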