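import Pool.Agent.helper16.FJ.Dec

set_option autoImplicit false

/-!
# The tower of stages
-/

namespace Pool.Agent.helper16.FJ

variable {X : Type} [DecidableEq X] {o : X} {A : Type} [Group A]

/-- properties of the sequence of kernels -/
structure KProp (c : Co o A) (K : ℕ → Subgroup A) : Prop where
  normal : ∀ n, (K n).Normal
  mono : ∀ m n, m ≤ n → K m ≤ K n
  inv : ∀ n, K n ≤ preK c.ψ (K n)
  le_ker : ∀ n, K n ≤ c.φ.ker
  ker : ∀ a, c.φ a = 1 → ∃ n, a ∈ K n

theorem realV_eq_one (φ : A →* PA X) (b : VS o A) (h : realV o φ b.1 = 1) :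
    ∀ n, (b.1 n).perm = 1 ∧ ∀ x, φ ((b.1 n).sec x) = 1 := by
  intro n
  induction n generalizing b with
  | zero =>
    refine ⟨?_, fun x => ?_⟩
    · rw [← realV_root o φ b.1, h]; rfl
    · by_cases hx : x = o
      · rw [hx, VS.sec_o b, map_one]
      · rw [← realV_off o φ b.1 hx, h]; rfl
  | succ n ih =>
    refine ih (VS.shift o A b) ?_
    have : realV o φ (VS.shift o A b).1 = (realV o φ b.1).sec o := (realV_on o φ b.1).symm
    rw [this, h]
    rfl

omit [DecidableEq X] in
theorem inV_mem_KF {K : Subgroup A} (b : VS o A)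
    (h : ∀ n, (b.1 n).perm = 1 ∧ ∀ x, (b.1 n).sec x ∈ K) : FF.inV o A b ∈ KF o K := by
  intro B _ f hf
  rw [FF.map_inV]
  have : VS.map o f b = 1 := by
    apply Subtype.ext
    funext n
    apply Wr.ext
    · exact (h n).1
    · funext x
      exact hf _ ((h n).2 x)
  rw [this, map_one]

theorem KProp.mem_N [Finite X] {c : Co o A} {K : ℕ → Subgroup A} (h : KProp c K) {w : FF o A}
    (hw : w ∈ c.N) (h1 : c.next.φ w = 1) : ∃ m, w ∈ c.RR (K m) := by
  rcases hw with ⟨a, rfl⟩ | ⟨η, b, ξ, rfl⟩
  · rw [Co.next_φ_j] at h1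
    obtain ⟨m, hm⟩ := h.ker a h1
    exact ⟨m, c.j_mem_RR hm⟩
  · have hd := c.dl_dir η b ξ
    rw [h1] at hd
    have hξ : ξ = η := by
      by_contra hne
      obtain ⟨n, hn⟩ := pre_ne hne
      apply hn
      have := hd.act_pre n
      simpa using this
    subst hξ
    rw [Co.φ_dl] at h1
    have hb : realV o c.φ b.1 = 1 := by
      have : realV o c.φ b.1 =
        (tray o ξ)⁻¹ * (tray o ξ * realV o c.φ b.1 * (tray o ξ)⁻¹) * tray o ξ := by group
      rw [this, h1]
      group
    have h2 := realV_eq_one c.φ b hb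
    -- uniform bound
    have h3 : ∀ w : (Set.range b.1), ∀ x : X, ∃ m, (w.1.sec x) ∈ K m := by
      rintro ⟨_, n, rfl⟩ x
      exact h.ker _ ((h2 n).2 x)
    choose f hf using h3
    have hfin : Finite (Set.range b.1) := b.2.1.to_subtype
    obtain ⟨M, hM⟩ := (Set.finite_range fun p : (Set.range b.1) × X => f p.1 p.2).bddAbove
    refine ⟨M, ?_⟩
    have h4 : FF.inV o A b ∈ KF o (K M) := by
      apply inV_mem_KF
      intro n
      refine ⟨(h2 n).1, fun x => ?_⟩
      exact h.mono _ _ (hM ⟨(⟨b.1 n, n, rfl⟩, x), rfl⟩) (hf ⟨b.1 n, n, rfl⟩ x)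
    have h5 := c.KF_le_RR _ h4
    exact Subgroup.Normal.conj_mem inferInstance _ h5 (FF.tt o A ξ)

theorem KProp.next [Finite X] {c : Co o A} {K : ℕ → Subgroup A} (h : KProp c K)
    (hc : c.Ctr) : KProp c.next (c.KN K) where
  normal n := preK_iter_normal _ inferInstance n
  mono m n hmn := (preK_iter_mono _ (c.RR_mono (h.mono m n hmn)) m).trans
    (preK_iter_le _ (c.RR_inv (h.normal n) (h.inv n)) hmn)
  inv n := preK_iter_inv _ (c.RR_inv (h.normal n) (h.inv n)) n
  le_ker n := preK_iter_le_ker c.next.compat (c.RR_le_ker (h.le_ker n)) n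
  ker u hu := by
    obtain ⟨n, hn⟩ := hc.good u
    have h1 : ∀ v : {v : List X // v.length = n}, ∃ m, secU c.next.ψ u v.1 ∈ c.RR (K m) := by
      intro v
      refine h.mem_N (hn v.1 v.2) ?_
      rw [map_secU c.next.compat, hu]
      rfl
    choose f hf using h1
    have hfin : Finite {v : List X // v.length = n} := (List.finite_length_eq X n).to_subtype
    obtain ⟨M, hM⟩ := (Set.finite_range f).bddAbove
    refine ⟨max n M, ?_⟩
    have h2 : u ∈ (preK c.next.ψ)^[n] (c.RR (K (max n M))) := by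
      refine mem_preK_iter c.next.compat n u hu fun v hv => ?_
      exact c.RR_mono (h.mono _ _ ((hM ⟨⟨v, hv⟩, rfl⟩).trans (le_max_right n M))) (hf ⟨v, hv⟩)
    exact preK_iter_le _ (c.RR_inv (h.normal _) (h.inv _)) (le_max_left n M) h2

/-- The interpolation property. -/
def Star (P : ∀ (G : Type) [Group G], Prop) (K : ℕ → Subgroup A) : Prop :=
  ∀ n, ∃ (n' : ℕ) (B : Type) (_ : Group B) (f : A →* B), P B ∧ Function.Surjective f ∧
    (∀ u ∈ K n, f u = 1) ∧ (∀ u, f u = 1 → u ∈ K n')

/-- a copy of `ℕ` without order -/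
structure Idx where
  /-- the number -/
  n : ℕ

theorem Inherit.of_star {P : ∀ (G : Type) [Group G], Prop} (hP : Inherit P) {c : Co o A}
    {K : ℕ → Subgroup A} (hK : KProp c K) (hS : Star P K) : P c.φ.range := by
  choose n' B gB f hPB hf hk hk' using hS
  let ord : Preorder Idx :=
    { le := fun i j => (f i.n).ker ≤ (f j.n).ker
      le_refl := fun i => le_refl (f i.n).ker
      le_trans := fun i j k h1 h2 => le_trans h1 h2 }
  have hdir : @IsDirectedOrder Idx ord.toLE := by
    refine ⟨fun i j => ?_⟩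
    refine ⟨⟨max (n' i.n) (n' j.n)⟩, ?_, ?_⟩
    · intro u hu
      exact hk _ _ (hK.mono _ _ (le_max_left (n' i.n) (n' j.n)) (hk' i.n u hu))
    · intro u hu
      exact hk _ _ (hK.mono _ _ (le_max_right (n' i.n) (n' j.n)) (hk' j.n u hu))
  refine @Inherit.colim P hP Idx ord ⟨⟨0⟩⟩ hdir (fun n => A ⧸ (f n.n).ker) inferInstance
    (fun i j (hij : (f i.n).ker ≤ (f j.n).ker) =>
      QuotientGroup.map (f i.n).ker (f j.n).ker (MonoidHom.id A) hij)
    c.φ.range inferInstance
    (fun n => QuotientGroup.lift (f n.n).ker c.φ.rangeRestrict (by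
      intro u hu
      have := hK.le_ker _ (hk' n.n u hu)
      exact Subtype.ext this)) ?_ ?_ ?_ ?_ ?_ ?_
  · intro i x
    induction x using QuotientGroup.induction_on
    rfl
  · intro i j k hij hjk x
    induction x using QuotientGroup.induction_on
    rfl
  · intro i j hij x
    induction x using QuotientGroup.induction_on
    rfl
  · rintro ⟨_, u, rfl⟩
    exact ⟨⟨0⟩, (u : A ⧸ (f 0).ker), rfl⟩
  · intro i x
    induction x using QuotientGroup.induction_on with
    | H u =>
      intro hx
      have hu : c.φ u = 1 := congrArg Subtype.val hx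
      obtain ⟨n, hn⟩ := hK.ker u hu
      refine ⟨⟨max n (n' i.n)⟩, ?_, ?_⟩
      · intro u hu
        exact hk _ _ (hK.mono _ _ (le_max_right n (n' i.n)) (hk' i.n u hu))
      · exact (QuotientGroup.eq_one_iff u).2 (hk _ _ (hK.mono _ _ (le_max_left n (n' i.n)) hn))
  · intro n
    exact hP.of_mulEquiv (QuotientGroup.quotientKerEquivOfSurjective (f n.n) (hf n.n)).symm
      (hPB n.n)

/-- data needed for the interpolation property at the next stage -/
def HasDec (c : Co o A) (K : ℕ → Subgroup A) : Prop :=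
  ∀ (n : ℕ) (Z : Type) [Group Z] (α : A →* Z) (β : FF o A →* Z),
    (∀ u ∈ K n, α u = 1) → (∀ u ∈ KF o (K n), β u = 1) →
    ∃ (s : ℕ) (δ : FF o A →* WI X Z s), (∀ u ∈ c.KN K n, δ u = 1) ∧
      ∀ (Q : Type) [Group Q] (π : Z →* Q) (q : FF o A →* Q), π.comp β = q →
        π.comp α = q.comp c.j → (WI.map π s).comp δ = st c.next.ψ q s

theorem Star.next {P : ∀ (G : Type) [Group G], Prop} (hP : Inherit P) [Finite X] {c : Co o A}
    {K : ℕ → Subgroup A} (hK : KProp c K) (hD : HasDec c K) (hS : Star P K) :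
    Star P (c.KN K) := by
  intro n
  obtain ⟨n', B, gB, f, hPB, hf, hk, hk'⟩ := hS n
  let Z := Monoid.Coprod B (FF o B)
  let α : A →* Z := Monoid.Coprod.inl.comp f
  let β : FF o A →* Z := Monoid.Coprod.inr.comp (FF.map o f)
  obtain ⟨s, δ, h1, h2⟩ := hD n Z α β
    (fun u hu => by
      change Monoid.Coprod.inl (f u) = 1
      rw [hk u hu, map_one])
    (fun u hu => by
      change Monoid.Coprod.inr (FF.map o f u) = 1
      rw [hu B f hk, map_one])
  have hPZ : P Z := hP.coprod _ _ hPB (hP.FF o hPB)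
  -- the quotient
  let q := QuotientGroup.mk' (c.RR f.ker)
  have hq : ∀ u ∈ c.RR f.ker, q u = 1 := fun u hu => (QuotientGroup.eq_one_iff u).2 hu
  obtain ⟨π1, hπ1⟩ := exists_factor f hf (q.comp c.j)
    (fun a ha => hq _ (c.j_mem_RR ha))
  obtain ⟨π2, hπ2⟩ := exists_factor (FF.map o f) (FF.map_surjective f hf) q (by
    intro u hu
    apply hq
    apply c.KF_le_RR
    intro D _ g hg
    obtain ⟨g', hg'⟩ := exists_factor f hf g fun a ha => hg a ha
    rw [← hg', ← FF.map_map, hu, map_one])
  let π : Z →* FF o A ⧸ c.RR f.ker := Monoid.Coprod.lift π1 π2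
  have h3 := h2 _ π q (by
    apply MonoidHom.ext
    intro u
    have := DFunLike.congr_fun hπ2 u
    change Monoid.Coprod.lift π1 π2 (Monoid.Coprod.inr (FF.map o f u)) = q u
    rw [Monoid.Coprod.lift_apply_inr]
    exact this) (by
    apply MonoidHom.ext
    intro u
    have := DFunLike.congr_fun hπ1 u
    change Monoid.Coprod.lift π1 π2 (Monoid.Coprod.inl (f u)) = q (c.j u)
    rw [Monoid.Coprod.lift_apply_inl]
    exact this)
  refine ⟨max s n', δ.range, inferInstance, δ.rangeRestrict,
    hP.subgroup _ (hP.WI X Z hPZ s) _, δ.rangeRestrict_surjective, ?_, ?_⟩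
  · intro u hu
    exact Subtype.ext (h1 u hu)
  · intro u hu
    have hu' : δ u = 1 := congrArg Subtype.val hu
    have h4 : st c.next.ψ q s u = 1 := by
      rw [← h3, MonoidHom.comp_apply, hu', map_one]
    have h5 := mem_of_st_eq_one c.next.ψ q (N := c.RR f.ker)
      (fun u hu => (QuotientGroup.eq_one_iff u).1 hu) s u h4
    have h6 : f.ker ≤ K (max s n') := fun a ha => hK.mono _ _ (le_max_right s n') (hk' a ha)
    have h7 := preK_iter_mono c.next.ψ (c.RR_mono h6) s h5
    exact preK_iter_le _ (c.RR_inv (hK.normal _) (hK.inv _)) (le_max_left s n') h7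

/-! ### The tower -/

/-- bundled stages -/
structure Stg (o : X) where
  /-- the group -/
  A : Type
  /-- its structure -/
  grp : Group A
  /-- the stage structure -/
  c : Co o A

attribute [instance] Stg.grp

/-- the trivial stage -/
noncomputable def base (o : X) : Co o Unit where
  ψ := 1
  φ := 1
  j := 1
  hφ := by
    apply MonoidHom.ext
    intro u
    exact map_one _
  hψ := by
    apply MonoidHom.ext
    intro u
    exact (map_one _).trans (map_one (Wr.map (1 : Unit →* FF o Unit))).symm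
  compat := by
    intro u
    exact (map_one PA.toWr).trans (map_one (Wr.map (1 : Unit →* PA X))).symm

/-- the tower -/
noncomputable def stg (o : X) : ℕ → Stg o
  | 0 => ⟨Unit, inferInstance, base o⟩
  | l + 1 => ⟨FF o (stg o l).A, inferInstance, (stg o l).c.next⟩

/-- the kernels -/
noncomputable def Kf (o : X) : (l : ℕ) → ℕ → Subgroup (stg o l).A
  | 0 => fun _ => ⊥
  | l + 1 => fun n => (stg o l).c.KN (Kf o l) n

/-- the classes of decompositions -/
noncomputable def Vf (o : X) (Z : Type) [Group Z] (n : ℕ) : (l : ℕ) → ((stg o l).A →* Z) →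
    (FF o (stg o l).A →* Z) → ℕ → Cls X (stg o l).A Z
  | 0, _, _ => fun a s _ => n + a ≤ s
  | l + 1, α, β => Vnext n (stg o l).c (α.comp (stg o l).c.j) (β.comp (FF.map o (stg o l).c.j))
      (Vf o Z n l (α.comp (stg o l).c.j) (β.comp (FF.map o (stg o l).c.j)))

theorem unit_hom_eq {B : Type} [Group B] (f g : Unit →* B) : f = g := by
  apply MonoidHom.ext
  intro u
  exact (map_one f).trans (map_one g).symm

theorem Ctr_base : (base o).Ctr := by
  intro A _ d g _ e η b ξ
  have : d.j (g e) = 1 := by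
    have : e = 1 := rfl
    rw [this, map_one, map_one]
  rw [this, one_mul]
  exact Good.of_mem (d.dl_mem _ _ _)

theorem Ctr_stg [Finite X] (l : ℕ) : (stg o l).c.Ctr := by
  induction l with
  | zero => exact Ctr_base
  | succ l ih => exact ih.step

theorem KProp_stg [Finite X] (l : ℕ) : KProp (stg o l).c (Kf o l) := by
  induction l with
  | zero =>
    exact
      { normal := fun n => (inferInstance : (⊥ : Subgroup Unit).Normal)
        mono := fun m n _ => le_rfl
        inv := fun n u hu => ⟨rfl, fun x => Subgroup.mem_bot.2 rfl⟩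
        le_ker := fun n => bot_le
        ker := fun a _ => ⟨0, Subgroup.mem_bot.2 rfl⟩ }
  | succ l ih => exact ih.next (Ctr_stg l)

end Pool.Agent.helper16.FJ
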