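import Pool.Agent.helper16.FJ.Wreath

set_option autoImplicit false

/-!
# The automorphism group of a regular rooted tree, as a group of portraits
-/

namespace Pool.Agent.helper16.FJ

theorem perm_inv_apply {X : Type} (s : Equiv.Perm X) (x : X) : s⁻¹ (s x) = x :=
  s.symm_apply_apply x

theorem perm_apply_inv {X : Type} (s : Equiv.Perm X) (x : X) : s (s⁻¹ x) = x :=
  s.apply_symm_apply x

/-- A portrait: a permutation of `X` at every vertex (word) of the tree `X^*`. -/
def PA (X : Type) : Type := List X → Equiv.Perm X

namespace PA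

variable {X : Type}

theorem ext' {p q : PA X} (h : ∀ v, p v = q v) : p = q := funext h

/-- section at a letter -/
def sec (p : PA X) (x : X) : PA X := fun w => p (x :: w)

/-- section at a word -/
def secw (p : PA X) (v : List X) : PA X := fun w => p (v ++ w)

/-- action on words -/
def act (p : PA X) : List X → List X
  | [] => []
  | x :: v => p [] x :: act (p.sec x) v

/-- inverse action on words -/
def actInv (p : PA X) : List X → List X
  | [] => []
  | y :: v => (p [])⁻¹ y :: actInv (p.sec ((p [])⁻¹ y)) v

@[simp] theorem act_nil (p : PA X) : p.act [] = [] := rfl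
@[simp] theorem act_cons (p : PA X) (x : X) (v : List X) :
    p.act (x :: v) = p [] x :: (p.sec x).act v := rfl

theorem actInv_act (p : PA X) (v : List X) : p.actInv (p.act v) = v := by
  induction v generalizing p with
  | nil => rfl
  | cons x v ih =>
    simp only [act, actInv]
    rw [perm_inv_apply, ih]

theorem act_actInv (p : PA X) (v : List X) : p.act (p.actInv v) = v := by
  induction v generalizing p with
  | nil => rfl
  | cons x v ih =>
    simp only [act, actInv]
    rw [perm_apply_inv, ih]

instance : Mul (PA X) := ⟨fun p q => fun v => p (q.act v) * q v⟩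
instance : One (PA X) := ⟨fun _ => 1⟩
instance : Inv (PA X) := ⟨fun p => fun v => (p (p.actInv v))⁻¹⟩

theorem mul_apply (p q : PA X) (v : List X) : (p * q) v = p (q.act v) * q v := rfl
@[simp] theorem one_apply (v : List X) : (1 : PA X) v = 1 := rfl
theorem inv_apply (p : PA X) (v : List X) : (p⁻¹) v = (p (p.actInv v))⁻¹ := rfl

theorem sec_mul (p q : PA X) (x : X) : (p * q).sec x = p.sec (q [] x) * q.sec x := rfl
@[simp] theorem sec_one (x : X) : (1 : PA X).sec x = 1 := rfl

theorem act_mul (p q : PA X) (v : List X) : (p * q).act v = p.act (q.act v) := by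
  induction v generalizing p q with
  | nil => rfl
  | cons x v ih =>
    simp only [act, sec_mul, ih]
    rfl

@[simp] theorem act_one (v : List X) : (1 : PA X).act v = v := by
  induction v with
  | nil => rfl
  | cons x v ih => simp [ih]

instance : Group (PA X) := Group.ofLeftAxioms
  (by
    intro a b c
    apply ext'
    intro v
    simp only [mul_apply, act_mul, mul_assoc])
  (by
    intro a
    apply ext'
    intro v
    simp [mul_apply])
  (by
    intro a
    apply ext'
    intro v
    simp [mul_apply, inv_apply, actInv_act])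

theorem root_mul (p q : PA X) : (p * q) [] = p [] * q [] := rfl
@[simp] theorem root_one : (1 : PA X) [] = 1 := rfl
theorem root_inv (p : PA X) : (p⁻¹) [] = (p [])⁻¹ := rfl

theorem sec_inv (p : PA X) (x : X) : (p⁻¹).sec x = (p.sec ((p [])⁻¹ x))⁻¹ := by
  have h : (p⁻¹ * p) = 1 := inv_mul_cancel p
  have h2 := congrArg (fun q : PA X => q.sec ((p [])⁻¹ x)) h
  simp only [sec_mul, perm_apply_inv, sec_one] at h2
  exact eq_inv_of_mul_eq_one_left h2

@[simp] theorem secw_nil (p : PA X) : p.secw [] = p := rfl
theorem secw_cons (p : PA X) (x : X) (v : List X) : p.secw (x :: v) = (p.sec x).secw v := rfl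
theorem secw_append (p : PA X) (v w : List X) : p.secw (v ++ w) = (p.secw v).secw w := by
  apply ext'
  intro u
  simp [secw, List.append_assoc]

theorem secw_singleton (p : PA X) (x : X) : p.secw [x] = p.sec x := rfl

theorem sec_eq_one_iff (p : PA X) : p = 1 ↔ p [] = 1 ∧ ∀ x, p.sec x = 1 := by
  constructor
  · rintro rfl; exact ⟨rfl, fun _ => rfl⟩
  · rintro ⟨h1, h2⟩
    apply ext'
    intro v
    cases v with
    | nil => exact h1
    | cons x v => exact congrFun (h2 x) v

@[simp] theorem length_act (p : PA X) (v : List X) : (p.act v).length = v.length := by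
  induction v generalizing p with
  | nil => rfl
  | cons x v ih => simp [ih]

theorem act_append (p : PA X) (v w : List X) :
    p.act (v ++ w) = p.act v ++ (p.secw v).act w := by
  induction v generalizing p with
  | nil => simp
  | cons x v ih =>
    simp only [List.cons_append, act_cons, ih, secw_cons]

theorem act_append_singleton (p : PA X) (v : List X) (x : X) :
    p.act (v ++ [x]) = p.act v ++ [p v x] := by
  rw [act_append]
  simp [secw]

theorem secw_mul (p q : PA X) (v : List X) :
    (p * q).secw v = p.secw (q.act v) * q.secw v := by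
  induction v generalizing p q with
  | nil => rfl
  | cons x v ih =>
    rw [secw_cons, sec_mul, ih]
    rfl

@[simp] theorem secw_one (v : List X) : (1 : PA X).secw v = 1 := rfl

theorem act_inv (p : PA X) (v : List X) : (p⁻¹).act v = p.actInv v := by
  have h : (p⁻¹ * p).act (p.actInv v) = p.actInv v := by rw [inv_mul_cancel, act_one]
  rw [act_mul, act_actInv] at h
  exact h

theorem act_injective (p : PA X) : Function.Injective p.act :=
  fun v w h => by rw [← actInv_act p v, h, actInv_act]

/-- the wreath recursion of the full group -/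
def toWr : PA X →* Wr (PA X) X where
  toFun p := ⟨p [], p.sec⟩
  map_one' := rfl
  map_mul' _ _ := rfl

@[simp] theorem toWr_perm (p : PA X) : (toWr p).perm = p [] := rfl
@[simp] theorem toWr_sec (p : PA X) (x : X) : (toWr p).sec x = p.sec x := rfl

theorem toWr_injective : Function.Injective (toWr (X := X)) := by
  rw [injective_iff_map_eq_one]
  intro p hp
  rw [sec_eq_one_iff]
  exact ⟨congrArg Wr.perm hp, fun x => congrFun (congrArg Wr.sec hp) x⟩

/-- the portrait with given root permutation and given sections -/
def mk (s : Equiv.Perm X) (f : X → PA X) : PA X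
  | [] => s
  | x :: v => f x v

@[simp] theorem mk_root (s : Equiv.Perm X) (f : X → PA X) : (mk s f) [] = s := rfl
@[simp] theorem mk_sec (s : Equiv.Perm X) (f : X → PA X) (x : X) : (mk s f).sec x = f x := rfl

/-! ### Level subgroups -/

/-- automorphisms all of whose sections at level `n` are in `G` -/
def lvl (G : Subgroup (PA X)) : ℕ → Subgroup (PA X)
  | 0 => G
  | n + 1 =>
    { carrier := {p | ∀ x, p.sec x ∈ lvl G n}
      mul_mem' := by
        intro a b ha hb x
        rw [sec_mul]
        exact mul_mem (ha _) (hb _)
      one_mem' := by intro x; exact one_mem _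
      inv_mem' := by
        intro a ha x
        rw [sec_inv]
        exact inv_mem (ha _) }

theorem mem_lvl_zero (G : Subgroup (PA X)) (p : PA X) : p ∈ lvl G 0 ↔ p ∈ G := Iff.rfl
theorem mem_lvl_succ (G : Subgroup (PA X)) (n : ℕ) (p : PA X) :
    p ∈ lvl G (n + 1) ↔ ∀ x, p.sec x ∈ lvl G n := Iff.rfl

theorem mem_lvl (G : Subgroup (PA X)) (n : ℕ) (p : PA X) :
    p ∈ lvl G n ↔ ∀ v : List X, v.length = n → p.secw v ∈ G := by
  induction n generalizing p with
  | zero =>
    constructor
    · intro h v hv
      rw [List.length_eq_zero_iff] at hv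
      subst hv
      exact h
    · intro h
      exact h [] rfl
  | succ n ih =>
    rw [mem_lvl_succ]
    constructor
    · intro h v hv
      cases v with
      | nil => simp at hv
      | cons x v =>
        rw [secw_cons]
        exact (ih _).1 (h x) v (by simpa using hv)
    · intro h x
      rw [ih]
      intro v hv
      exact h (x :: v) (by simpa using hv)

/-- self-similar subgroups -/
def SelfSim (G : Subgroup (PA X)) : Prop := ∀ p ∈ G, ∀ x, p.sec x ∈ G

theorem SelfSim.secw {G : Subgroup (PA X)} (h : SelfSim G) {p : PA X} (hp : p ∈ G)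
    (v : List X) : p.secw v ∈ G := by
  induction v generalizing p with
  | nil => exact hp
  | cons x v ih => exact ih (h p hp x)

theorem lvl_mono {G H : Subgroup (PA X)} (h : G ≤ H) (n : ℕ) : lvl G n ≤ lvl H n := by
  intro p hp
  rw [mem_lvl] at hp ⊢
  exact fun v hv => h (hp v hv)

theorem lvl_le_succ {G : Subgroup (PA X)} (h : SelfSim G) (n : ℕ) : lvl G n ≤ lvl G (n + 1) := by
  induction n with
  | zero => exact fun p hp x => h p hp x
  | succ n ih => exact fun p hp x => ih (hp x)

theorem lvl_le {G : Subgroup (PA X)} (h : SelfSim G) {m n : ℕ} (hmn : m ≤ n) :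
    lvl G m ≤ lvl G n := by
  induction hmn with
  | refl => exact le_rfl
  | step _ ih => exact ih.trans (lvl_le_succ h _)

/-! ### Finitary automorphisms -/

/-- automorphisms whose labels at depth `≥ C` are trivial -/
def fin (X : Type) (C : ℕ) : Subgroup (PA X) where
  carrier := {p | ∀ v : List X, C ≤ v.length → p v = 1}
  mul_mem' := by
    intro a b ha hb v hv
    rw [mul_apply, hb v hv, ha _ (by simpa using hv), mul_one]
  one_mem' := fun _ _ => rfl
  inv_mem' := by
    intro a ha v hv
    rw [inv_apply, ← act_inv, ha _ (by simpa using hv), inv_one]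

theorem mem_fin {C : ℕ} {p : PA X} : p ∈ fin X C ↔ ∀ v : List X, C ≤ v.length → p v = 1 := Iff.rfl

theorem fin_zero_eq {p : PA X} (h : p ∈ fin X 0) : p = 1 := ext' fun v => h v (Nat.zero_le _)

theorem sec_mem_fin {C : ℕ} {p : PA X} (h : p ∈ fin X (C + 1)) (x : X) : p.sec x ∈ fin X C :=
  fun v hv => h (x :: v) (by simpa using hv)

theorem fin_mono {C D : ℕ} (h : C ≤ D) : fin X C ≤ fin X D :=
  fun _ hp v hv => hp v (h.trans hv)

theorem fin_selfSim (C : ℕ) : SelfSim (fin X C) := by
  intro p hp x
  exact fun v hv => hp (x :: v) (by simp; omega)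

theorem secw_fin {C : ℕ} {p : PA X} (h : p ∈ fin X C) (v : List X) (hv : C ≤ v.length) :
    p.secw v = 1 := by
  apply ext'
  intro w
  exact h (v ++ w) (by simp; omega)

theorem fin_eq_lvl (C : ℕ) : fin X C = lvl ⊥ C := by
  ext p
  rw [mem_lvl]
  constructor
  · intro h v hv
    rw [Subgroup.mem_bot]
    exact secw_fin h v (by omega)
  · intro h v hv
    have h1 : v = v.take C ++ v.drop C := (List.take_append_drop C v).symm
    have h2 := h (v.take C) (by simp; omega)
    rw [Subgroup.mem_bot] at h2
    rw [h1]
    exact congrFun h2 (v.drop C)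

end PA

namespace Inherit

variable {P : ∀ (G : Type) [Group G], Prop} (hP : Inherit P)
include hP

theorem lvl {X : Type} [Finite X] {G : Subgroup (PA X)} (hG : P G) (n : ℕ) :
    P (PA.lvl G n) := by
  induction n with
  | zero => exact hG
  | succ n ih =>
    let f : PA.lvl G (n + 1) →* Wr (PA.lvl G n) X :=
      { toFun := fun p => ⟨p.1 [], fun x => ⟨p.1.sec x, p.2 x⟩⟩
        map_one' := rfl
        map_mul' := fun _ _ => rfl }
    refine hP.of_injective f ?_ (hP.wr ih X)
    rw [injective_iff_map_eq_one]
    intro p hp
    apply Subtype.ext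
    rw [Subgroup.coe_one, PA.sec_eq_one_iff]
    refine ⟨congrArg Wr.perm hp, fun x => ?_⟩
    exact congrArg Subtype.val (congrFun (congrArg Wr.sec hp) x)

theorem of_le {G : Type} [Group G] {H K : Subgroup G} (h : H ≤ K) (hK : P K) : P H :=
  hP.of_injective (Subgroup.inclusion h) (Subgroup.inclusion_injective h) hK

end Inherit

theorem PA.fin_finite (X : Type) [Finite X] (C : ℕ) : Finite (PA.fin X C) := by
  rw [PA.fin_eq_lvl]
  induction C with
  | zero =>
    rw [show PA.lvl (⊥ : Subgroup (PA X)) 0 = ⊥ from rfl]
    infer_instance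
  | succ C ih =>
    let f : PA.lvl (⊥ : Subgroup (PA X)) (C + 1) →
        (Equiv.Perm X) × (X → PA.lvl (⊥ : Subgroup (PA X)) C) :=
      fun p => (p.1 [], fun x => ⟨p.1.sec x, p.2 x⟩)
    refine Finite.of_injective f ?_
    intro p q hpq
    simp only [f, Prod.mk.injEq] at hpq
    apply Subtype.ext
    apply PA.ext'
    intro v
    cases v with
    | nil => exact hpq.1
    | cons x v =>
      have := congrArg Subtype.val (congrFun hpq.2 x)
      exact congrFun this v

end Pool.Agent.helper16.FJ
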