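import Pool.Agent.helper16.FJ.Class

set_option autoImplicit false

/-!
# Permutational wreath products with a finite set, finite-range sequences
-/

namespace Pool.Agent.helper16.FJ

/-- The permutational wreath product `F ≀ Sym(X)`. An element acts on `X` by `perm` and has a
section `sec x` at every `x`; `(a b).sec x = a.sec (b x) * b.sec x`. -/
@[ext] structure Wr (F X : Type) where
  /-- the permutation of `X` -/
  perm : Equiv.Perm X
  /-- the sections -/
  sec : X → F

namespace Wr

variable {F X : Type} [Group F]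

instance : Mul (Wr F X) := ⟨fun a b => ⟨a.perm * b.perm, fun x => a.sec (b.perm x) * b.sec x⟩⟩
instance : One (Wr F X) := ⟨⟨1, fun _ => 1⟩⟩
instance : Inv (Wr F X) := ⟨fun a => ⟨a.perm⁻¹, fun x => (a.sec (a.perm⁻¹ x))⁻¹⟩⟩

@[simp] theorem mul_perm (a b : Wr F X) : (a * b).perm = a.perm * b.perm := rfl
@[simp] theorem mul_sec (a b : Wr F X) (x : X) :
    (a * b).sec x = a.sec (b.perm x) * b.sec x := rfl
@[simp] theorem one_perm : (1 : Wr F X).perm = 1 := rfl
@[simp] theorem one_sec (x : X) : (1 : Wr F X).sec x = 1 := rfl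
@[simp] theorem inv_perm (a : Wr F X) : (a⁻¹).perm = a.perm⁻¹ := rfl
@[simp] theorem inv_sec (a : Wr F X) (x : X) : (a⁻¹).sec x = (a.sec (a.perm⁻¹ x))⁻¹ := rfl

instance : Group (Wr F X) := Group.ofLeftAxioms
  (by
    intro a b c
    ext x
    · rfl
    · simp [mul_assoc])
  (by
    intro a
    ext x
    · rfl
    · simp)
  (by
    intro a
    ext x
    · simp
    · simp)

/-- projection to the permutation -/
def permHom : Wr F X →* Equiv.Perm X where
  toFun a := a.perm
  map_one' := rfl
  map_mul' _ _ := rfl

@[simp] theorem permHom_apply (a : Wr F X) : permHom a = a.perm := rfl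

/-- functoriality -/
def map {F' : Type} [Group F'] (f : F →* F') : Wr F X →* Wr F' X where
  toFun a := ⟨a.perm, fun x => f (a.sec x)⟩
  map_one' := by ext x <;> simp
  map_mul' a b := by ext x <;> simp

@[simp] theorem map_perm {F' : Type} [Group F'] (f : F →* F') (a : Wr F X) :
    (map f a).perm = a.perm := rfl
@[simp] theorem map_sec {F' : Type} [Group F'] (f : F →* F') (a : Wr F X) (x : X) :
    (map f a).sec x = f (a.sec x) := rfl

end Wr

namespace Inherit

variable {P : ∀ (G : Type) [Group G], Prop} (hP : Inherit P)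
include hP

theorem wr {F : Type} [Group F] (hF : P F) (X : Type) [Finite X] : P (Wr F X) := by
  refine hP.overgroup _ (Wr.permHom (F := F) (X := X)).ker ?_ ?_
  · exact Subgroup.finiteIndex_ker _
  · refine hP.of_injective (G := X → F)
      { toFun := fun a => a.1.sec
        map_one' := rfl
        map_mul' := ?_ } ?_ (hP.pi hF X)
    · intro a b
      funext x
      have hb : b.1.perm = 1 := b.2
      simp [hb]
    · intro a b hab
      have ha' : a.1.perm = 1 := a.2
      have hb' : b.1.perm = 1 := b.2
      apply Subtype.ext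
      apply Wr.ext
      · rw [ha', hb']
      · exact hab

/-- Sequences with finite range in a group of the class. -/
theorem finite_range_seq {W : Type} [Group W] (hW : P W) (K : Subgroup (ℕ → W))
    (hK : ∀ s ∈ K, (Set.range s).Finite) : P K := by
  classical
  refine hP.of_fg (G := K) ?_
  intro S
  -- finitely many tuples
  have hfin : (Set.range (fun n : ℕ => fun s : S => (s.1.1 : ℕ → W) n)).Finite := by
    have h1 : (Set.pi Set.univ (fun s : S => Set.range (s.1.1 : ℕ → W))).Finite :=
      Set.Finite.pi' (fun s => hK _ s.1.2) |>.subset (by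
        intro f hf
        simpa using hf)
    refine h1.subset ?_
    rintro _ ⟨n, rfl⟩
    intro s _
    exact ⟨n, rfl⟩
  -- choose representatives
  obtain ⟨T, hT⟩ : ∃ T : Finset ℕ, ∀ n, ∃ m ∈ T, ∀ s : S, (s.1.1 : ℕ → W) m = (s.1.1 : ℕ → W) n := by
    let e := fun n : ℕ => fun s : S => (s.1.1 : ℕ → W) n
    choose! r hr using (fun y (hy : y ∈ Set.range e) => hy)
    refine ⟨(hfin.image r).toFinset, ?_⟩
    intro n
    refine ⟨r (e n), ?_, ?_⟩
    · simp only [Set.Finite.mem_toFinset]
      exact ⟨e n, ⟨n, rfl⟩, rfl⟩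
    · intro s
      have := hr (e n) ⟨n, rfl⟩
      exact congrFun this s
  -- the evaluation at `T` is injective
  let ev : ∀ n : ℕ, K →* W := fun n =>
    { toFun := fun a => a.1 n, map_one' := rfl, map_mul' := fun _ _ => rfl }
  let f : Subgroup.closure (S : Set K) →* (T → W) :=
    { toFun := fun a => fun m => a.1.1 m.1, map_one' := rfl, map_mul' := fun _ _ => rfl }
  refine hP.of_injective f ?_ (hP.pi hW T)
  rw [injective_iff_map_eq_one]
  intro a ha
  apply Subtype.ext
  apply Subtype.ext
  funext n
  obtain ⟨m, hm, hmn⟩ := hT n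
  have h1 : Set.EqOn (ev m) (ev n) (S : Set K) := fun s hs => hmn ⟨s, hs⟩
  have h2 := MonoidHom.eqOn_closure h1 a.2
  have h3 : a.1.1 m = 1 := congrFun ha ⟨m, hm⟩
  have h4 : a.1.1 m = a.1.1 n := h2
  rw [h4] at h3
  simpa using h3

end Inherit

end Pool.Agent.helper16.FJ
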